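import Pool.Agent.Y63.AWC.Norm

/-!
# Characters of defect zero over a normal `p'`-subgroup with `p`-power index
-/

open scoped BigOperators Classical
open Representation Pool.Agent.Helper884.IC

set_option linter.unusedSectionVars false
set_option linter.style.haveILetI false

noncomputable section

namespace Pool.Agent.Y63.AWC

variable {X : Type} [Group X] [Fintype X] (M : Subgroup X) [hM : M.Normal]

/-- the stabiliser of a function on `M` -/
def St (theta : M → ℂ) : Subgroup X where
  carrier := {x | cj M x theta = theta}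
  one_mem' := cj_one M theta
  mul_mem' := by
    intro a b ha hb
    simp only [Set.mem_ofPred_eq] at ha hb ⊢
    rw [cj_mul, ha, hb]
  inv_mem' := by
    intro a ha
    simp only [Set.mem_ofPred_eq] at ha ⊢
    exact ((cj_inv_iff M a theta theta).mp ha).symm

lemma mem_St {theta : M → ℂ} {x : X} : x ∈ St M theta ↔ cj M x theta = theta := Iff.rfl

lemma le_St {theta : M → ℂ} (h : IsClass theta) : M ≤ St M theta := by
  intro x hx
  rw [mem_St]
  funext m
  have h1 : MulAut.conjNormal x m = (⟨x, hx⟩ : M) * m * (⟨x, hx⟩ : M)⁻¹ := by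
    apply Subtype.ext
    rw [MulAut.conjNormal_apply]
    rfl
  simp only [cj]
  rw [h1, h]

/-- the orbit of a function on `M` -/
def Orb (theta : M → ℂ) : Finset (M → ℂ) := Finset.univ.image fun x : X => cj M x theta

lemma card_Orb_mul (theta : M → ℂ) : (Orb M theta).card * Nat.card (St M theta) = Nat.card X := by
  have h1 : (Finset.univ : Finset X).card = ∑ t ∈ Orb M theta,
      ((Finset.univ : Finset X).filter fun x => cj M x theta = t).card :=
    Finset.card_eq_sum_card_image (fun x : X => cj M x theta) Finset.univ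
  have h2 : ∀ t ∈ Orb M theta, ((Finset.univ : Finset X).filter fun x => cj M x theta = t).card
      = Nat.card (St M theta) := by
    intro t ht
    obtain ⟨y, -, rfl⟩ := Finset.mem_image.mp ht
    rw [← Fintype.card_subtype, ← Nat.card_eq_fintype_card]
    refine Nat.card_congr ((Equiv.mulRight y⁻¹).subtypeEquiv fun x => ?_)
    simp only [Equiv.coe_mulRight]
    rw [mem_St, cj_mul]
    constructor
    · intro h
      rw [h, ← cj_mul, mul_inv_cancel, cj_one]
    · intro h
      have := congrArg (cj M y) h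
      rwa [← cj_mul, inv_mul_cancel, cj_one] at this
  rw [Finset.sum_congr rfl h2, Finset.sum_const, smul_eq_mul, Finset.card_univ] at h1
  rw [← h1, Nat.card_eq_fintype_card]

lemma St_eq {theta : M → ℂ} (h : IsIrrChar theta) :
    Nat.card (St M theta) = Nat.card M * ∑ chi ∈ Irr X, mult M chi theta ^ 2 := by
  have h1 := clifford M theta theta h h
  simp only [← sq] at h1
  rw [h1]
  rfl

lemma mem_Orb_of_mult {chi : X → ℂ} {theta theta' : M → ℂ} (hc : IsIrrChar chi)
    (h : IsIrrChar theta) (h' : IsIrrChar theta') (h1 : mult M chi theta ≠ 0)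
    (h2 : mult M chi theta' ≠ 0) : theta' ∈ Orb M theta := by
  have h3 := clifford M theta' theta h' h
  have h4 : 0 < Nat.card M * ∑ chi ∈ Irr X, mult M chi theta' * mult M chi theta := by
    apply Nat.mul_pos Nat.card_pos
    apply Finset.sum_pos'
    · intro i _
      exact Nat.zero_le _
    · exact ⟨chi, mem_Irr.mpr hc, Nat.mul_pos (Nat.pos_of_ne_zero h2) (Nat.pos_of_ne_zero h1)⟩
  rw [h3] at h4
  have : Nonempty {x : X // cj M x theta = theta'} := (Nat.card_pos_iff.mp h4).1
  obtain ⟨x, hx⟩ := this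
  exact Finset.mem_image.mpr ⟨x, Finset.mem_univ _, hx⟩

lemma Orb_irr {theta theta' : M → ℂ} (h : IsIrrChar theta) (h' : theta' ∈ Orb M theta) :
    IsIrrChar theta' := by
  obtain ⟨x, -, rfl⟩ := Finset.mem_image.mp h'
  exact cj_irr M x h

lemma support_eq {chi : X → ℂ} {theta : M → ℂ} (hc : IsIrrChar chi)
    (h : IsIrrChar theta) (h1 : mult M chi theta ≠ 0) :
    ((Irr M).filter fun t => mult M chi t ≠ 0) = Orb M theta := by
  ext t
  simp only [Finset.mem_filter]
  constructor
  · rintro ⟨ht, hm⟩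
    exact mem_Orb_of_mult M hc h (mem_Irr.mp ht) h1 hm
  · intro ht
    refine ⟨mem_Irr.mpr (Orb_irr M h ht), ?_⟩
    obtain ⟨x, -, rfl⟩ := Finset.mem_image.mp ht
    rwa [mult_cj M hc h]

/-- the degree of `chi` in terms of a constituent of its restriction -/
lemma deg_eq {chi : X → ℂ} {theta : M → ℂ} (hc : IsIrrChar chi)
    (h : IsIrrChar theta) (h1 : mult M chi theta ≠ 0) {n d : ℕ} (hn : chi 1 = n) (hd : theta 1 = d) :
    n = (Orb M theta).card * mult M chi theta * d := by
  have h2 := congrFun (res_eq M hc) 1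
  rw [Finset.sum_apply] at h2
  have h3 : ∑ t ∈ Irr M, ((mult M chi t : ℂ) • t) 1
      = ∑ t ∈ (Irr M).filter fun t => mult M chi t ≠ 0, ((mult M chi t : ℂ) • t) 1 := by
    rw [Finset.sum_filter_of_ne]
    intro t _ ht hz
    apply ht
    simp [hz]
  rw [h3, support_eq M hc h h1] at h2
  have h4 : ∀ t ∈ Orb M theta, ((mult M chi t : ℂ) • t) 1 = ((mult M chi theta * d : ℕ) : ℂ) := by
    intro t ht
    obtain ⟨x, -, rfl⟩ := Finset.mem_image.mp ht
    rw [Pi.smul_apply, smul_eq_mul, mult_cj M hc h]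
    have : cj M x theta 1 = theta 1 := by simp [cj]
    rw [this, hd]
    push_cast
    rfl
  rw [Finset.sum_congr rfl h4, Finset.sum_const, nsmul_eq_mul] at h2
  have h5 : res M chi 1 = (n : ℂ) := by
    simp [res, hn]
  rw [h5] at h2
  have h6 : n = (Orb M theta).card * (mult M chi theta * d) := by exact_mod_cast h2
  rw [h6, mul_assoc]

variable {p : ℕ} [hp : Fact p.Prime]

/-- arithmetic core -/
lemma arith {r O m d t S : ℕ} (hd : ¬ p ∣ d) (hO : 0 < O) (hm : 0 < m)
    (h1 : O * (t * S) = p ^ r * S) (hS : 0 < S) (hmt : m ^ 2 ≤ t)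
    (hdiv : p ^ r ∣ O * m * d) : m = 1 ∧ t = 1 ∧ O = p ^ r := by
  have h2 : O * t = p ^ r := by
    have : (O * t) * S = p ^ r * S := by rw [← h1]; ring
    exact Nat.eq_of_mul_eq_mul_right hS this
  have hcop : Nat.Coprime (p ^ r) d := Nat.Coprime.pow_left r ((hp.out.coprime_iff_not_dvd).mpr hd)
  have h3 : p ^ r ∣ O * m := hcop.dvd_of_dvd_mul_right hdiv
  have h4 : O * t ≤ O * m := by
    rw [h2]
    exact Nat.le_of_dvd (Nat.mul_pos hO hm) h3
  have h5 : t ≤ m := Nat.le_of_mul_le_mul_left h4 hO
  have h6 : m ^ 2 ≤ m := hmt.trans h5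
  have h7 : m = 1 := by nlinarith
  subst h7
  have h8 : t = 1 := by
    apply le_antisymm h5
    simpa using hmt
  subst h8
  exact ⟨rfl, rfl, by simpa using h2⟩

/-- the condition of defect zero -/
def DZ (p : ℕ) {X : Type} [Group X] (chi : X → ℂ) : Prop :=
  ∃ n : ℕ, chi 1 = (n : ℂ) ∧ n.factorization p = (Nat.card X).factorization p

lemma mult_exists {chi : X → ℂ} (hc : IsIrrChar chi) :
    ∃ theta : M → ℂ, IsIrrChar theta ∧ mult M chi theta ≠ 0 := by
  by_contra hcon
  push Not at hcon
  have h2 := congrFun (res_eq M hc) 1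
  rw [Finset.sum_apply] at h2
  rw [Finset.sum_eq_zero] at h2
  · have h5 : res M chi 1 = chi 1 := by
      simp [res]
    rw [h5] at h2
    exact one_ne hc h2
  · intro t ht
    simp [hcon t (mem_Irr.mp ht)]

lemma card_X {r : ℕ} (hr : Nat.card X = p ^ r * Nat.card M) (hpM : ¬ p ∣ Nat.card M) :
    (Nat.card X).factorization p = r := by
  rw [hr, Nat.factorization_mul (pow_ne_zero _ hp.out.ne_zero) Nat.card_pos.ne',
    Finsupp.add_apply, hp.out.factorization_pow, Finsupp.single_eq_same,
    Nat.factorization_eq_zero_of_not_dvd hpM, add_zero]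

lemma dz_constituent {r : ℕ} (hr : Nat.card X = p ^ r * Nat.card M) (hpM : ¬ p ∣ Nat.card M)
    {chi : X → ℂ} {theta : M → ℂ} (hc : IsIrrChar chi) (hz : DZ p chi)
    (h : IsIrrChar theta) (h1 : mult M chi theta ≠ 0) :
    Nat.card (St M theta) = Nat.card M ∧ (Orb M theta).card = p ^ r := by
  obtain ⟨n, hn, hfac⟩ := hz
  obtain ⟨d, hd0, hd⟩ := deg_nat h
  have hdM := deg_dvd h hd
  have hpd : ¬ p ∣ d := fun hh => hpM (hh.trans hdM)
  have hdeg := deg_eq M hc h h1 hn hd
  have hn0 : n ≠ 0 := by
    rintro rfl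
    exact one_ne hc (by simpa using hn)
  have hdiv : p ^ r ∣ (Orb M theta).card * mult M chi theta * d := by
    rw [← hdeg]
    rw [card_X M hr hpM] at hfac
    exact (hp.out.pow_dvd_iff_le_factorization hn0).mpr hfac.ge
  have hOrb := card_Orb_mul M theta
  rw [St_eq M h, hr] at hOrb
  have hO : 0 < (Orb M theta).card := by
    rw [Finset.card_pos]
    exact ⟨_, Finset.mem_image.mpr ⟨1, Finset.mem_univ _, rfl⟩⟩
  have key := arith (p := p) (r := r) (O := (Orb M theta).card) (m := mult M chi theta) (d := d)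
    (t := ∑ chi ∈ Irr X, mult M chi theta ^ 2) (S := Nat.card M) hpd hO (Nat.pos_of_ne_zero h1)
    (by rw [← hOrb]; ring) Nat.card_pos
    (Finset.single_le_sum (f := fun c => mult M c theta ^ 2) (fun _ _ => Nat.zero_le _)
      (mem_Irr.mpr hc)) hdiv
  refine ⟨?_, key.2.2⟩
  rw [St_eq M h, key.2.1, mul_one]

lemma unique_over {theta : M → ℂ} (h : IsIrrChar theta)
    (hst : Nat.card (St M theta) = Nat.card M) :
    ((Irr X).filter fun chi => mult M chi theta ≠ 0).card = 1 ∧
      ∀ chi ∈ Irr X, mult M chi theta ≤ 1 := by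
  have h1 : ∑ chi ∈ Irr X, mult M chi theta ^ 2 = 1 := by
    have := St_eq M h
    rw [hst] at this
    exact (Nat.eq_of_mul_eq_mul_left Nat.card_pos (by rw [mul_one]; exact this)).symm
  have h2 : ∀ chi ∈ Irr X, mult M chi theta ≤ 1 := by
    intro chi hc
    have : mult M chi theta ^ 2 ≤ 1 := by
      rw [← h1]
      exact Finset.single_le_sum (f := fun c => mult M c theta ^ 2) (fun _ _ => Nat.zero_le _) hc
    nlinarith
  refine ⟨?_, h2⟩
  rw [Finset.card_filter]
  refine Eq.trans (Finset.sum_congr rfl fun chi hc => ?_) h1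
  have := h2 chi hc
  interval_cases h : mult M chi theta <;> simp

/-- **Count of the characters of defect zero.** -/
theorem count_dz {r : ℕ} (hr : Nat.card X = p ^ r * Nat.card M) (hpM : ¬ p ∣ Nat.card M) :
    p ^ r * ((Irr X).filter fun chi => DZ p chi).card =
      ((Irr M).filter fun theta => Nat.card (St M theta) = Nat.card M).card := by
  set S := (Irr X).filter fun chi => DZ p chi with hS
  set T := (Irr M).filter fun theta => Nat.card (St M theta) = Nat.card M with hT
  have h := Finset.sum_card_bipartiteAbove_eq_sum_card_bipartiteBelow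
    (s := S) (t := T) (fun chi theta => mult M chi theta ≠ 0)
  have h1 : ∀ chi ∈ S, (Finset.bipartiteAbove (fun chi theta => mult M chi theta ≠ 0) T chi).card
      = p ^ r := by
    intro chi hchi
    obtain ⟨hc, hz⟩ := Finset.mem_filter.mp hchi
    have hc := mem_Irr.mp hc
    obtain ⟨theta, ht, hm⟩ := mult_exists M hc
    have h2 := dz_constituent M hr hpM hc hz ht hm
    rw [← h2.2, ← support_eq M hc ht hm]
    congr 1
    ext t
    simp only [Finset.bipartiteAbove, Finset.mem_filter, hT]
    constructor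
    · rintro ⟨⟨h3, -⟩, h4⟩
      exact ⟨h3, h4⟩
    · rintro ⟨h3, h4⟩
      exact ⟨⟨h3, (dz_constituent M hr hpM hc hz (mem_Irr.mp h3) h4).1⟩, h4⟩
  have h2 : ∀ theta ∈ T, (Finset.bipartiteBelow (fun chi theta => mult M chi theta ≠ 0) S theta).card
      = 1 := by
    intro theta htheta
    obtain ⟨ht, hst⟩ := Finset.mem_filter.mp htheta
    have ht := mem_Irr.mp ht
    obtain ⟨h3, h4⟩ := unique_over M ht hst
    rw [← h3]
    congr 1
    ext chi
    simp only [Finset.bipartiteBelow, Finset.mem_filter, hS]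
    constructor
    · rintro ⟨⟨h5, -⟩, h6⟩
      exact ⟨h5, h6⟩
    · rintro ⟨h5, h6⟩
      refine ⟨⟨h5, ?_⟩, h6⟩
      have h5' := mem_Irr.mp h5
      obtain ⟨n, hn0, hn⟩ := deg_nat h5'
      obtain ⟨d, hd0, hd⟩ := deg_nat ht
      have hpd : ¬ p ∣ d := fun hh => hpM (hh.trans (deg_dvd ht hd))
      have hdeg := deg_eq M h5' ht h6 hn hd
      have hm1 : mult M chi theta = 1 := le_antisymm (h4 chi h5) (Nat.pos_of_ne_zero h6)
      have hO : (Orb M theta).card = p ^ r := by
        have := card_Orb_mul M theta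
        rw [hst, hr] at this
        exact Nat.eq_of_mul_eq_mul_right Nat.card_pos this
      refine ⟨n, hn, ?_⟩
      rw [card_X M hr hpM, hdeg, hm1, mul_one, hO,
        Nat.factorization_mul (pow_ne_zero _ hp.out.ne_zero) hd0.ne', Finsupp.add_apply,
        hp.out.factorization_pow, Finsupp.single_eq_same,
        Nat.factorization_eq_zero_of_not_dvd hpd, add_zero]
  rw [Finset.sum_congr rfl h1, Finset.sum_congr rfl h2, Finset.sum_const, Finset.sum_const,
    smul_eq_mul, smul_eq_mul, mul_one] at h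
  rw [← h, mul_comm]

end Pool.Agent.Y63.AWC
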