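import Pool.Agent.Y63.AWC.Z1

/-!
# The number of characters of defect zero in terms of commuting pairs
-/

open scoped BigOperators Classical
open Representation Pool.Agent.Helper884.IC

set_option linter.unusedSectionVars false
set_option linter.style.haveILetI false

noncomputable section

namespace Pool.Agent.Y63.AWC

/-- preimages of sets under surjective homomorphisms -/
lemma card_preimage {X Y : Type} [Group X] [Group Y] [Finite X] [Finite Y] (f : X →* Y)
    (hf : Function.Surjective f) (P : Y → Prop) :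
    Nat.card {x : X // P (f x)} = Nat.card f.ker * Nat.card {y : Y // P y} := by
  have : Fintype X := Fintype.ofFinite X
  have : Fintype Y := Fintype.ofFinite Y
  have e : {x : X // P (f x)} ≃ (Σ y : {y : Y // P y}, {x : X // f x = y}) :=
    { toFun := fun x => ⟨⟨f x, x.2⟩, ⟨x, rfl⟩⟩
      invFun := fun s => ⟨s.2.1, by
        have := s.2.2
        rw [this]
        exact s.1.2⟩
      left_inv := fun x => rfl
      right_inv := fun s => by
        obtain ⟨⟨y, hy⟩, ⟨x, hx⟩⟩ := s
        simp only at hx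
        subst hx
        rfl }
  rw [Nat.card_congr e, Nat.card_sigma]
  have h1 : ∀ y : {y : Y // P y}, Nat.card {x : X // f x = y} = Nat.card f.ker := by
    intro y
    obtain ⟨x0, hx0⟩ := hf y
    refine Nat.card_congr ((Equiv.mulLeft x0⁻¹).subtypeEquiv fun x => ?_)
    simp only [Equiv.coe_mulLeft]
    rw [MonoidHom.mem_ker, map_mul, map_inv, hx0, inv_mul_eq_one, eq_comm]
  rw [Finset.sum_congr rfl fun y _ => h1 y, Finset.sum_const, Finset.card_univ, smul_eq_mul,
    mul_comm, Nat.card_eq_fintype_card (α := {y : Y // P y})]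

variable {p : ℕ} [hp : Fact p.Prime]

/-- the subgroups of a cyclic `p`-group form a chain -/
lemma cyc_total {C : Type} [Group C] [Finite C] [IsCyclic C] (hC : IsPGroup p C)
    (S T : Subgroup C) : S ≤ T ∨ T ≤ S := by
  have : Fintype C := Fintype.ofFinite C
  have key : ∀ S T : Subgroup C, Nat.card S ∣ Nat.card T → S ≤ T := by
    intro S T h x hx
    have h1 : x ^ Nat.card T = 1 := by
      have h2 : (⟨x, hx⟩ : S) ^ Nat.card T = 1 := by
        obtain ⟨k, hk⟩ := h
        rw [hk, pow_mul, pow_card_eq_one', one_pow]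
      exact congrArg Subtype.val h2
    have h3 := IsCyclic.card_pow_eq_one_le (α := C) (n := Nat.card T) Nat.card_pos
    have h4 : (Finset.univ.filter (· ∈ T) : Finset C) ⊆
        (Finset.univ.filter fun a : C => a ^ Nat.card T = 1) := by
      intro y hy
      simp only [Finset.mem_filter, Finset.mem_univ, true_and] at hy ⊢
      have : (⟨y, hy⟩ : T) ^ Nat.card T = 1 := pow_card_eq_one'
      exact congrArg Subtype.val this
    have h5 : (Finset.univ.filter (· ∈ T) : Finset C).card = Nat.card T := by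
      rw [Nat.card_eq_fintype_card, Fintype.card_subtype]
    have h6 := Finset.eq_of_subset_of_card_le h4 (by rw [h5]; exact h3)
    have h7 : x ∈ (Finset.univ.filter fun a : C => a ^ Nat.card T = 1) :=
      Finset.mem_filter.mpr ⟨Finset.mem_univ _, h1⟩
    rw [← h6] at h7
    simpa using h7
  obtain ⟨i, hi⟩ := (IsPGroup.iff_card.mp (hC.to_subgroup S))
  obtain ⟨j, hj⟩ := (IsPGroup.iff_card.mp (hC.to_subgroup T))
  rcases le_total i j with h | h
  · left
    apply key
    rw [hi, hj]
    exact pow_dvd_pow p h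
  · right
    apply key
    rw [hi, hj]
    exact pow_dvd_pow p h

variable {X : Type} [Group X] [Fintype X] (M : Subgroup X) [hM : M.Normal]

lemma St_iff [IsCyclic (X ⧸ M)] (hC : IsPGroup p (X ⧸ M)) {theta : M → ℂ} (h : IsIrrChar theta)
    {y : X} (hy : y ∉ M) (hyp : y ^ p ∈ M) :
    cj M y theta = theta ↔ ¬ Nat.card (St M theta) = Nat.card M := by
  have hle : M ≤ St M theta := le_St M h.isClass
  constructor
  · intro h1 h2
    have h3 : M = St M theta := Subgroup.eq_of_le_of_card_ge hle h2.le
    apply hy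
    rw [h3]
    exact h1
  · intro h1
    have h2 : ∃ z ∈ St M theta, z ∉ M := by
      by_contra hcon
      push Not at hcon
      exact h1 (congrArg (fun S : Subgroup X => Nat.card S) (le_antisymm hcon hle))
    obtain ⟨z, hz, hzM⟩ := h2
    set π := QuotientGroup.mk' M with hπ
    have hfin : Finite (X ⧸ M) := inferInstance
    rcases cyc_total hC ((St M theta).map π) (Subgroup.zpowers (π y)) with h3 | h3
    · -- the stabiliser is small: its image is the group of order p
      have hz1 : π z ∈ Subgroup.zpowers (π y) := h3 (Subgroup.mem_map_of_mem π hz)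
      have hord : orderOf (π y) = p := by
        apply orderOf_eq_prime
        · rw [← map_pow]
          exact (QuotientGroup.eq_one_iff _).mpr hyp
        · intro h4
          exact hy ((QuotientGroup.eq_one_iff _).mp h4)
      have hzne : π z ≠ 1 := fun h4 => hzM ((QuotientGroup.eq_one_iff _).mp h4)
      have hord2 : orderOf (π z) = p := by
        have h5 : orderOf (π z) ∣ p := by
          rw [← hord]
          exact orderOf_dvd_of_mem_zpowers hz1
        rcases (Nat.dvd_prime hp.out).mp h5 with h6 | h6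
        · exact absurd (orderOf_eq_one_iff.mp h6) hzne
        · exact h6
      have h7 : Subgroup.zpowers (π z) = Subgroup.zpowers (π y) := by
        apply Subgroup.eq_of_le_of_card_ge
        · rw [Subgroup.zpowers_le]
          exact hz1
        · rw [Nat.card_zpowers, Nat.card_zpowers, hord, hord2]
      have h8 : π y ∈ (St M theta).map π := by
        have : π y ∈ Subgroup.zpowers (π z) := by
          rw [h7]
          exact Subgroup.mem_zpowers _
        exact (Subgroup.zpowers_le.mpr (Subgroup.mem_map_of_mem π hz)) this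
      obtain ⟨w, hw, hwy⟩ := h8
      have h9 : w⁻¹ * y ∈ M := QuotientGroup.eq.mp hwy
      have : y = w * (w⁻¹ * y) := by group
      rw [← mem_St, this]
      exact (St M theta).mul_mem hw (hle h9)
    · have h8 : π y ∈ (St M theta).map π := h3 (Subgroup.mem_zpowers _)
      obtain ⟨w, hw, hwy⟩ := h8
      have h9 : w⁻¹ * y ∈ M := QuotientGroup.eq.mp hwy
      have : y = w * (w⁻¹ * y) := by group
      rw [← mem_St, this]
      exact (St M theta).mul_mem hw (hle h9)

/-- number of elements of order `p` modulo `M` -/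
lemma card_order_p [IsCyclic (X ⧸ M)] (hC : IsPGroup p (X ⧸ M)) (hne : M ≠ ⊤) :
    Nat.card {x : X // x ∉ M ∧ x ^ p ∈ M} = Nat.card M * (p - 1) := by
  have : Fintype (X ⧸ M) := Fintype.ofFinite _
  have h1 := card_preimage (QuotientGroup.mk' M) (QuotientGroup.mk'_surjective M)
    (fun c => c ≠ 1 ∧ c ^ p = 1)
  have h2 : Nat.card {x : X // x ∉ M ∧ x ^ p ∈ M} =
      Nat.card {x : X // (QuotientGroup.mk' M) x ≠ 1 ∧ ((QuotientGroup.mk' M) x) ^ p = 1} := by
    refine Nat.card_congr (Equiv.subtypeEquivRight fun x => ?_)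
    rw [← map_pow]
    simp only [QuotientGroup.mk'_apply, ne_eq, QuotientGroup.eq_one_iff]
  rw [h2, h1, QuotientGroup.ker_mk']
  congr 1
  have h3 : ∀ c : X ⧸ M, (c ≠ 1 ∧ c ^ p = 1) ↔ orderOf c = p := by
    intro c
    constructor
    · rintro ⟨h4, h5⟩
      exact orderOf_eq_prime h5 h4
    · intro h4
      refine ⟨?_, ?_⟩
      · rintro rfl
        rw [orderOf_one] at h4
        exact hp.out.one_lt.ne h4
      · rw [← h4]
        exact pow_orderOf_eq_one c
  rw [Nat.card_congr (Equiv.subtypeEquivRight h3), Nat.card_eq_fintype_card, Fintype.card_subtype]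
  have hdvd : p ∣ Fintype.card (X ⧸ M) := by
    have : Nontrivial (X ⧸ M) := QuotientGroup.nontrivial_iff.mpr hne
    obtain ⟨n, hn0, hn⟩ := (hC.nontrivial_iff_card).mp this
    rw [← Nat.card_eq_fintype_card, hn]
    exact dvd_pow_self p hn0.ne'
  rw [IsCyclic.card_orderOf_eq_totient hdvd, Nat.totient_prime hp.out]

/-- number of irreducible characters of `M` fixed by `x` -/
def nfix (x : X) : ℕ := ((Irr M).filter fun theta => cj M x theta = theta).card

lemma sum_fix (P : X → Prop) (hP : ∀ n ∈ M, ∀ x, P (n * x) ↔ P x) :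
    ∑ x ∈ Finset.univ.filter P, nfix M x =
      Nat.card {q : M × X // P q.2 ∧ (q.1 : X) * q.2 = q.2 * q.1} := by
  have h1 : Nat.card M * ∑ x ∈ Finset.univ.filter P, nfix M x =
      Nat.card {q : X × (M × M) // P q.1 ∧
        q.2.2 * MulAut.conjNormal q.1 q.2.1 * q.2.2⁻¹ = q.2.1} := by
    have hfc : ∀ x : X, Nat.card M * nfix M x =
        Nat.card {q : M × M // q.2 * MulAut.conjNormal x q.1 * q.2⁻¹ = q.1} := fun x => fix_count M x
    simp only [Finset.mul_sum, hfc]
    have e : {q : X × (M × M) // P q.1 ∧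
        q.2.2 * MulAut.conjNormal q.1 q.2.1 * q.2.2⁻¹ = q.2.1} ≃
        (Σ x : {x : X // P x}, {q : M × M // q.2 * MulAut.conjNormal (x : X) q.1 * q.2⁻¹ = q.1}) :=
      { toFun := fun q => ⟨⟨q.1.1, q.2.1⟩, ⟨q.1.2, q.2.2⟩⟩
        invFun := fun s => ⟨(s.1.1, s.2.1), s.1.2, s.2.2⟩
        left_inv := fun q => rfl
        right_inv := fun s => rfl }
    rw [Nat.card_congr e, Nat.card_sigma, ← Finset.sum_subtype (Finset.univ.filter P)
      (by simp) (fun x => Nat.card {q : M × M // q.2 * MulAut.conjNormal x q.1 * q.2⁻¹ = q.1})]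
  have h2 : Nat.card {q : X × (M × M) // P q.1 ∧
        q.2.2 * MulAut.conjNormal q.1 q.2.1 * q.2.2⁻¹ = q.2.1} =
      Nat.card M * Nat.card {q : M × X // P q.2 ∧ (q.1 : X) * q.2 = q.2 * q.1} := by
    have e : {q : X × (M × M) // P q.1 ∧
        q.2.2 * MulAut.conjNormal q.1 q.2.1 * q.2.2⁻¹ = q.2.1} ≃
        M × {q : M × X // P q.2 ∧ (q.1 : X) * q.2 = q.2 * q.1} :=
      { toFun := fun q => (q.1.2.2, ⟨(q.1.2.1, (q.1.2.2 : X) * q.1.1), by
          refine ⟨(hP _ q.1.2.2.2 _).mpr q.2.1, ?_⟩
          have h3 := congrArg Subtype.val q.2.2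
          simp only [Subgroup.coe_mul, MulAut.conjNormal_apply, InvMemClass.coe_inv] at h3
          calc (q.1.2.1 : X) * ((q.1.2.2 : X) * q.1.1)
              = ((q.1.2.2 : X) * (q.1.1 * q.1.2.1 * q.1.1⁻¹) * (q.1.2.2 : X)⁻¹) *
                ((q.1.2.2 : X) * q.1.1) := by rw [h3]
            _ = (q.1.2.2 : X) * q.1.1 * q.1.2.1 := by group⟩)
        invFun := fun s => ⟨((s.1 : X)⁻¹ * s.2.1.2, (s.2.1.1, s.1)), by
          refine ⟨(hP _ (M.inv_mem s.1.2) _).mpr s.2.2.1, ?_⟩
          apply Subtype.ext
          simp only [Subgroup.coe_mul, MulAut.conjNormal_apply, InvMemClass.coe_inv]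
          have h3 := s.2.2.2
          calc (s.1 : X) * ((s.1 : X)⁻¹ * s.2.1.2 * s.2.1.1 * ((s.1 : X)⁻¹ * s.2.1.2)⁻¹) * (s.1 : X)⁻¹
              = (s.2.1.2 * s.2.1.1) * s.2.1.2⁻¹ := by group
            _ = s.2.1.1 := by rw [← h3]; group⟩
        left_inv := fun q => by
          apply Subtype.ext
          ext <;> simp
        right_inv := fun s => by
          ext <;> simp }
    rw [Nat.card_congr e, Nat.card_prod]
  rw [h2] at h1
  exact Nat.eq_of_mul_eq_mul_left Nat.card_pos h1

lemma card_pairs : Nat.card M * (Irr M).card = Nat.card {q : M × M // q.1 * q.2 = q.2 * q.1} := by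
  have h := fix_count M (1 : X)
  have h1 : ((Irr M).filter fun theta => cj M (1 : X) theta = theta) = Irr M := by
    rw [Finset.filter_true_of_mem]
    intro theta _
    exact cj_one M theta
  rw [h1] at h
  rw [h]
  refine Nat.card_congr (Equiv.subtypeEquivRight fun q => ?_)
  simp only [map_one, MulAut.one_apply]
  rw [mul_inv_eq_iff_eq_mul, eq_comm]

/-- **The main formula for the number of characters of defect zero.** -/
theorem dz_formula [IsCyclic (X ⧸ M)] (hC : IsPGroup p (X ⧸ M)) (hpM : ¬ p ∣ Nat.card M) :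
    (p - 1) * (Nat.card X * ((Irr X).filter fun chi => DZ p chi).card) +
      Nat.card {q : M × X // (q.2 ∉ M ∧ q.2 ^ p ∈ M) ∧ (q.1 : X) * q.2 = q.2 * q.1} =
    (p - 1) * Nat.card {q : M × M // q.1 * q.2 = q.2 * q.1} := by
  obtain ⟨r, hr⟩ := IsPGroup.iff_card.mp hC
  have hX : Nat.card X = p ^ r * Nat.card M := by
    rw [← hr]
    exact Subgroup.card_eq_card_quotient_mul_card_subgroup M
  have hdz := count_dz M hX hpM
  set T := (Irr M).filter fun theta => Nat.card (St M theta) = Nat.card M with hT
  have h1 : Nat.card X * ((Irr X).filter fun chi => DZ p chi).card = Nat.card M * T.card := by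
    rw [← hdz, hX]
    ring
  obtain ⟨S, hS, hsum⟩ : ∃ S : Finset X, (∀ x, x ∈ S ↔ (x ∉ M ∧ x ^ p ∈ M)) ∧
      ∑ x ∈ S, nfix M x =
      Nat.card {q : M × X // (q.2 ∉ M ∧ q.2 ^ p ∈ M) ∧ (q.1 : X) * q.2 = q.2 * q.1} := by
    have hsf := sum_fix M (fun x => x ∉ M ∧ x ^ p ∈ M) (by
      intro n hn x
      have e1 : n * x ∈ M ↔ x ∈ M := Subgroup.mul_mem_cancel_left M hn
      have e2 : (n * x) ^ p ∈ M ↔ x ^ p ∈ M := by
        rw [← QuotientGroup.eq_one_iff, ← QuotientGroup.eq_one_iff, QuotientGroup.mk_pow,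
          QuotientGroup.mk_pow, QuotientGroup.mk_mul, (QuotientGroup.eq_one_iff n).mpr hn, one_mul]
      rw [e1, e2])
    refine ⟨_, ?_, hsf⟩
    intro x
    exact (@Finset.mem_filter X (fun x => x ∉ M ∧ x ^ p ∈ M) (_) Finset.univ x).trans
      (and_iff_right (Finset.mem_univ x))
  rw [h1, ← hsum, ← card_pairs M]
  have h2 : ∀ x ∈ S, nfix M x = (Irr M).card - T.card := by
    intro x hx
    rw [hS] at hx
    unfold nfix
    have h3 : ((Irr M).filter fun theta => cj M x theta = theta) = Irr M \ T := by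
      ext theta
      simp only [Finset.mem_filter, Finset.mem_sdiff, hT, not_and]
      constructor
      · rintro ⟨h4, h5⟩
        exact ⟨h4, fun _ => (St_iff M hC (mem_Irr.mp h4) hx.1 hx.2).mp h5⟩
      · rintro ⟨h4, h5⟩
        exact ⟨h4, (St_iff M hC (mem_Irr.mp h4) hx.1 hx.2).mpr (h5 h4)⟩
    rw [h3, Finset.card_sdiff_of_subset (Finset.filter_subset _ _)]
  have hTle : T.card ≤ (Irr M).card := Finset.card_filter_le _ _
  rw [Finset.sum_congr rfl h2, Finset.sum_const, smul_eq_mul]
  by_cases hne : M = ⊤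
  · have h4 : S = ∅ := by
      rw [Finset.eq_empty_iff_forall_notMem]
      intro x h
      rw [hS] at h
      apply h.1
      rw [hne]
      trivial
    have h5 : T = Irr M := by
      rw [hT, Finset.filter_true_of_mem]
      intro theta ht
      have h6 := le_St M (mem_Irr.mp ht).isClass
      have h7 : St M theta = M := by
        apply le_antisymm _ h6
        intro x _
        have : x ∈ (⊤ : Subgroup X) := trivial
        rwa [← hne] at this
      rw [h7]
    rw [h4, h5, Finset.card_empty, zero_mul, add_zero]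
  · have h4 := card_order_p M hC hne
    have h4' : S.card = Nat.card M * (p - 1) := by
      rw [← h4, ← Nat.card_congr (Equiv.subtypeEquivRight hS), Nat.card_eq_fintype_card,
        Fintype.card_coe]
    rw [h4']
    obtain ⟨c, hc⟩ := Nat.exists_eq_add_of_le hTle
    rw [hc, Nat.add_sub_cancel_left]
    ring

end Pool.Agent.Y63.AWC
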