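import Pool.Agent.Y63.AWC.Defs
import Pool.Agent.Y63.AWC.Z2

/-!
# Counting weights and regular classes by orbit counting
-/

open scoped BigOperators Classical
open Representation Pool.Agent.Helper884.IC

set_option linter.unusedSectionVars false
set_option linter.style.haveILetI false

noncomputable section

namespace Pool.Agent.Y63.AWC

/-- sums over orbits as weighted sums over points -/
theorem orbit_sum {G Ω : Type} [Group G] [Finite G] [Fintype Ω] [MulAction G Ω] (s : Setoid Ω)
    (hs : ∀ a b, s.r a b ↔ ∃ g : G, g • a = b) (f : Ω → ℕ) (hf : ∀ a b, s.r a b → f a = f b) :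
    Nat.card G * ∑ᶠ c : Quotient s, f c.out =
      ∑ ω : Ω, Nat.card (MulAction.stabilizer G ω) * f ω := by
  have : Fintype G := Fintype.ofFinite G
  rw [finsum_eq_sum_of_fintype, Finset.mul_sum]
  have h1 : ∑ ω : Ω, Nat.card (MulAction.stabilizer G ω) * f ω = ∑ c : Quotient s,
      ∑ ω ∈ Finset.univ.filter (fun ω : Ω => Quotient.mk s ω = c),
        Nat.card (MulAction.stabilizer G ω) * f ω :=
    (Finset.sum_fiberwise Finset.univ (fun ω : Ω => Quotient.mk s ω) _).symm
  rw [h1]
  refine Finset.sum_congr rfl fun c _ => ?_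
  have horb : ∀ ω : Ω, Quotient.mk s ω = c →
      (Finset.univ.filter (fun ω : Ω => Quotient.mk s ω = c)).card *
        Nat.card (MulAction.stabilizer G ω) = Nat.card G := by
    intro ω hω
    have h2 := MulAction.card_orbit_mul_card_stabilizer_eq_card_group G ω
    have h3 : (Finset.univ.filter (fun ω : Ω => Quotient.mk s ω = c)).card =
        Fintype.card (MulAction.orbit G ω) := by
      rw [← Fintype.card_subtype]
      refine Fintype.card_congr (Equiv.subtypeEquivRight fun a => ?_)
      rw [MulAction.mem_orbit_iff, ← hs, ← hω, eq_comm]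
      exact Quotient.eq (r := s)
    rw [h3, Nat.card_eq_fintype_card, Nat.card_eq_fintype_card]
    exact h2
  have hout : Quotient.mk s c.out = c := Quotient.out_eq c
  have h0 := horb c.out hout
  have hpos : 0 < (Finset.univ.filter (fun ω : Ω => Quotient.mk s ω = c)).card := by
    rw [Finset.card_pos]
    exact ⟨c.out, by simp⟩
  have h4 : ∀ ω ∈ Finset.univ.filter (fun ω : Ω => Quotient.mk s ω = c),
      Nat.card (MulAction.stabilizer G ω) * f ω =
        Nat.card (MulAction.stabilizer G c.out) * f c.out := by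
    intro ω hω
    have hω' : Quotient.mk s ω = c := (Finset.mem_filter.mp hω).2
    have h5 := horb ω hω'
    have h6 : Nat.card (MulAction.stabilizer G ω) = Nat.card (MulAction.stabilizer G c.out) :=
      Nat.eq_of_mul_eq_mul_left hpos (h5.trans h0.symm)
    have h7 : f ω = f c.out := by
      apply hf
      have : Quotient.mk s ω = Quotient.mk s c.out := hω'.trans hout.symm
      exact Quotient.eq.mp this
    rw [h6, h7]
  rw [Finset.sum_congr rfl h4, Finset.sum_const, smul_eq_mul, ← mul_assoc, h0]

/-- the indicator of a proposition -/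
def b01 (P : Prop) : ℕ := if P then 1 else 0

lemma b01_pos {P : Prop} (h : P) : b01 P = 1 := if_pos h

lemma b01_neg {P : Prop} (h : ¬ P) : b01 P = 0 := if_neg h

lemma b01_congr {P Q : Prop} (h : P ↔ Q) : b01 P = b01 Q := by
  rw [propext h]

/-- sums over orbits count orbits with a property -/
lemma finsum_ite_eq_card {α : Type} [Finite α] (P : α → Prop) :
    ∑ᶠ a : α, b01 (P a) = Nat.card {a : α // P a} := by
  have : Fintype α := Fintype.ofFinite α
  unfold b01
  rw [finsum_eq_sum_of_fintype, Finset.sum_boole, Nat.card_eq_fintype_card, Fintype.card_subtype]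
  rfl

variable {p : ℕ}

/-- the number of `p`-regular classes by commuting pairs -/
theorem card_mul_numRegularClasses (p : ℕ) (G : Type) [Group G] [Finite G] :
    Nat.card G * numRegularClasses p G =
      Nat.card {q : G × G // ¬ p ∣ orderOf q.1 ∧ q.1 * q.2 = q.2 * q.1} := by
  have : Fintype G := Fintype.ofFinite G
  have hr : ∀ a b : G, (IsConj.setoid G).r a b → (¬ p ∣ orderOf a ↔ ¬ p ∣ orderOf b) := by
    intro a b h
    obtain ⟨c, rfl⟩ := isConj_iff.mp h
    have : orderOf (c * a * c⁻¹) = orderOf a := by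
      have h1 := orderOf_injective (MulAut.conj c).toMonoidHom (MulAut.conj c).injective a
      simpa using h1
    rw [this]
  have h := orbit_sum (G := ConjAct G) (IsConj.setoid G) (by
    intro a b
    change IsConj a b ↔ _
    rw [isConj_iff]
    rfl) (fun x : G => b01 (¬ p ∣ orderOf x)) (fun a b hab => b01_congr (hr a b hab))
  have h2 : ∑ᶠ c : Quotient (IsConj.setoid G),
      b01 (¬ p ∣ orderOf (c.out : G)) = numRegularClasses p G := by
    have hfin : Finite (Quotient (IsConj.setoid G)) := inferInstance
    rw [finsum_ite_eq_card (fun c : Quotient (IsConj.setoid G) => ¬ p ∣ orderOf (c.out : G))]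
    unfold numRegularClasses
    refine Nat.card_congr (Equiv.subtypeEquivRight fun c => ?_)
    constructor
    · intro h3
      exact ⟨c.out, Quotient.out_eq c, h3⟩
    · rintro ⟨x, hx, h3⟩
      have h4 : IsConj x c.out := by
        have : (Quotient.mk (IsConj.setoid G) x) = Quotient.mk (IsConj.setoid G) c.out :=
          hx.trans (Quotient.out_eq c).symm
        exact Quotient.eq.mp this
      exact (hr _ _ h4).mp h3
  rw [h2] at h
  have hcard : Nat.card (ConjAct G) = Nat.card G := rfl
  rw [hcard] at h
  rw [h]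
  have e : {q : G × G // ¬ p ∣ orderOf q.1 ∧ q.1 * q.2 = q.2 * q.1} ≃
      (Σ x : {x : G // ¬ p ∣ orderOf x}, {y : G // (x : G) * y = y * x}) :=
    { toFun := fun q => ⟨⟨q.1.1, q.2.1⟩, ⟨q.1.2, q.2.2⟩⟩
      invFun := fun s => ⟨(s.1.1, s.2.1), s.1.2, s.2.2⟩
      left_inv := fun q => rfl
      right_inv := fun s => rfl }
  rw [Nat.card_congr e, Nat.card_sigma]
  have h5 : ∀ x : G, Nat.card (MulAction.stabilizer (ConjAct G) x) = Nat.card {y : G // x * y = y * x} := by
    intro x
    refine Nat.card_congr (Equiv.subtypeEquiv (ConjAct.ofConjAct (G := G)).toEquiv fun y => ?_)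
    rw [MulAction.mem_stabilizer_iff, ConjAct.smul_def]
    change _ ↔ x * (ConjAct.ofConjAct y) = (ConjAct.ofConjAct y) * x
    rw [mul_inv_eq_iff_eq_mul, eq_comm]
  have h6 : ∀ x : G, Nat.card (MulAction.stabilizer (ConjAct G) x) * b01 (¬ p ∣ orderOf x) =
      if ¬ p ∣ orderOf x then Nat.card {y : G // x * y = y * x} else 0 := by
    intro x
    rw [h5]
    by_cases h7 : ¬ p ∣ orderOf x
    · rw [b01_pos h7, if_pos h7, mul_one]
    · rw [b01_neg h7, if_neg h7, mul_zero]
  simp only [h6]
  rw [← Finset.sum_filter]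
  exact Finset.sum_subtype (p := fun x : G => ¬ p ∣ orderOf x)
    (Finset.univ.filter fun x : G => ¬ p ∣ orderOf x) (by simp)
    (fun x => Nat.card {y : G // x * y = y * x})

lemma numRegularClasses_congr {G H : Type} [Group G] [Group H] [Finite G] [Finite H] (e : G ≃* H) :
    numRegularClasses p G = numRegularClasses p H := by
  have h1 := card_mul_numRegularClasses p G
  have h2 := card_mul_numRegularClasses p H
  have h3 : Nat.card {q : G × G // ¬ p ∣ orderOf q.1 ∧ q.1 * q.2 = q.2 * q.1} =
      Nat.card {q : H × H // ¬ p ∣ orderOf q.1 ∧ q.1 * q.2 = q.2 * q.1} := by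
    refine Nat.card_congr ((Equiv.prodCongr e.toEquiv e.toEquiv).subtypeEquiv fun q => ?_)
    change _ ↔ ¬ p ∣ orderOf (e q.1) ∧ e q.1 * e q.2 = e q.2 * e q.1
    rw [← map_mul, ← map_mul, e.injective.eq_iff, MulEquiv.orderOf_eq]
  rw [h3, ← h2, Nat.card_congr e.toEquiv] at h1
  exact Nat.eq_of_mul_eq_mul_left Nat.card_pos h1

lemma numDefectZero_congr {G H : Type} [Group G] [Group H] (e : G ≃* H) :
    numDefectZero p G = numDefectZero p H := by
  unfold numDefectZero
  have key : ∀ {G H : Type} [Group G] [Group H] (e : G ≃* H) (chi : G → ℂ),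
      (IsIrreducibleCharacter chi ∧ ∃ n : ℕ, chi 1 = (n : ℂ) ∧
        n.factorization p = (Nat.card G).factorization p) →
      (IsIrreducibleCharacter (fun x => chi (e.symm x)) ∧ ∃ n : ℕ, chi (e.symm 1) = (n : ℂ) ∧
        n.factorization p = (Nat.card H).factorization p) := by
    rintro G H _ _ e chi ⟨h1, n, h2, h3⟩
    refine ⟨irr_comp e.symm h1, n, ?_, ?_⟩
    · rw [map_one, h2]
    · rw [h3, Nat.card_congr e.toEquiv]
  refine Nat.card_congr
    { toFun := fun chi => ⟨fun x => chi.1 (e.symm x), key e chi.1 chi.2⟩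
      invFun := fun chi => ⟨fun x => chi.1 (e x), key e.symm chi.1 chi.2⟩
      left_inv := fun chi => by
        apply Subtype.ext
        funext x
        simp
      right_inv := fun chi => by
        apply Subtype.ext
        funext x
        simp }

/-- the local count `dz(N_G(Q)/Q)` -/
def loc (p : ℕ) {G : Type} [Group G] (Q : Subgroup G) : ℕ :=
  numDefectZero p (Subgroup.normalizer (Q : Set G) ⧸ Q.subgroupOf (Subgroup.normalizer (Q : Set G)))

lemma normalizer_map {G H : Type} [Group G] [Group H] (e : G ≃* H) (Q : Subgroup G) :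
    (Subgroup.normalizer (Q : Set G)).map e.toMonoidHom =
      Subgroup.normalizer ((Q.map e.toMonoidHom : Subgroup H) : Set H) := by
  ext x
  constructor
  · rintro ⟨y, hy, rfl⟩
    rw [SetLike.mem_coe, Subgroup.mem_normalizer_iff] at hy
    rw [Subgroup.mem_normalizer_iff]
    intro h
    constructor
    · rintro ⟨q, hq, rfl⟩
      exact ⟨y * q * y⁻¹, (hy q).mp hq, by simp⟩
    · rintro ⟨q, hq, hqe⟩
      refine ⟨y⁻¹ * q * y, ?_, ?_⟩
      · have := (hy (y⁻¹ * q * y)).mpr
        apply this
        have e1 : y * (y⁻¹ * q * y) * y⁻¹ = q := by group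
        rw [e1]
        exact hq
      · have hqe' : e q = e y * h * (e y)⁻¹ := hqe
        change e (y⁻¹ * q * y) = h
        rw [map_mul, map_mul, map_inv, hqe']
        group
  · intro hx
    refine ⟨e.symm x, ?_, by simp⟩
    rw [SetLike.mem_coe, Subgroup.mem_normalizer_iff]
    rw [Subgroup.mem_normalizer_iff] at hx
    intro h
    have h1 := hx (e h)
    have h2 : ∀ z : G, e z ∈ Q.map e.toMonoidHom ↔ z ∈ Q := by
      intro z
      constructor
      · rintro ⟨q, hq, hqe⟩
        have : q = z := e.injective hqe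
        rwa [← this]
      · intro hz
        exact ⟨z, hz, rfl⟩
    rw [h2] at h1
    have h3 : x * e h * x⁻¹ = e (e.symm x * h * (e.symm x)⁻¹) := by simp
    rw [h3, h2] at h1
    exact h1

lemma loc_map {G H : Type} [Group G] [Group H] (e : G ≃* H) (Q : Subgroup G) :
    loc p (Q.map e.toMonoidHom) = loc p Q := by
  symm
  unfold loc
  let e1 : Subgroup.normalizer (Q : Set G) ≃*
      Subgroup.normalizer ((Q.map e.toMonoidHom : Subgroup H) : Set H) :=
    (e.subgroupMap (Subgroup.normalizer (Q : Set G))).trans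
      (MulEquiv.subgroupCongr (normalizer_map e Q))
  have h1 : (Q.subgroupOf (Subgroup.normalizer (Q : Set G))).map e1.toMonoidHom =
      (Q.map e.toMonoidHom).subgroupOf
        (Subgroup.normalizer ((Q.map e.toMonoidHom : Subgroup H) : Set H)) := by
    ext x
    constructor
    · rintro ⟨y, hy, rfl⟩
      rw [Subgroup.mem_subgroupOf]
      exact ⟨y, hy, rfl⟩
    · intro hx
      rw [Subgroup.mem_subgroupOf] at hx
      obtain ⟨q, hq, hqe⟩ := hx
      refine ⟨⟨q, Subgroup.le_normalizer hq⟩, hq, ?_⟩
      apply Subtype.ext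
      exact hqe
  exact numDefectZero_congr (QuotientGroup.congr _ _ e1 h1)

/-- the number of weights as a weighted sum over all `p`-subgroups -/
theorem card_mul_numWeights (p : ℕ) (G : Type) [Group G] [Finite G] :
    Nat.card G * numWeights p G =
      ∑ᶠ Q : {Q : Subgroup G // IsPGroup p Q},
        Nat.card (Subgroup.normalizer (Q.1 : Set G)) * loc p Q.1 := by
  have : Fintype G := Fintype.ofFinite G
  have hfin : Finite {Q : Subgroup G // IsPGroup p Q} := inferInstance
  have : Fintype {Q : Subgroup G // IsPGroup p Q} := Fintype.ofFinite _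
  letI : MulAction G {Q : Subgroup G // IsPGroup p Q} :=
    { smul := fun g Q => ⟨Q.1.map (MulAut.conj g).toMonoidHom, Q.2.map _⟩
      one_smul := fun Q => by
        apply Subtype.ext
        change Q.1.map (MulAut.conj (1 : G)).toMonoidHom = Q.1
        ext x
        simp [Subgroup.mem_map]
      mul_smul := fun g h Q => by
        apply Subtype.ext
        change Q.1.map (MulAut.conj (g * h)).toMonoidHom =
          (Q.1.map (MulAut.conj h).toMonoidHom).map (MulAut.conj g).toMonoidHom
        rw [Subgroup.map_map]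
        congr 1
        ext x
        simp [mul_assoc] }
  have hsm : ∀ (g : G) (Q : {Q : Subgroup G // IsPGroup p Q}),
      (g • Q).1 = Q.1.map (MulAut.conj g).toMonoidHom := fun _ _ => rfl
  have h := orbit_sum (G := G) (pSubgroupSetoid p G) (by
    intro Q R
    change (∃ g : G, R.1 = Q.1.map (MulAut.conj g).toMonoidHom) ↔ _
    constructor
    · rintro ⟨g, hg⟩
      exact ⟨g, Subtype.ext (by rw [hsm, hg])⟩
    · rintro ⟨g, hg⟩
      exact ⟨g, by rw [← hg, hsm]⟩) (fun Q => loc p Q.1) (by
      rintro Q R ⟨g, hg⟩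
      change loc p Q.1 = loc p R.1
      rw [hg]
      exact (loc_map (MulAut.conj g) Q.1).symm)
  have h2 : numWeights p G = ∑ᶠ c : Quotient (pSubgroupSetoid p G), loc p c.out.1 := rfl
  rw [h2, h, finsum_eq_sum_of_fintype]
  refine Finset.sum_congr rfl fun Q _ => ?_
  congr 1
  refine Nat.card_congr (Equiv.subtypeEquivRight fun g => ?_)
  rw [MulAction.mem_stabilizer_iff, Subtype.ext_iff, hsm, Subgroup.mem_normalizer_iff]
  constructor
  · intro h3 x
    constructor
    · intro hx
      have : g * x * g⁻¹ ∈ Q.1.map (MulAut.conj g).toMonoidHom := ⟨x, hx, rfl⟩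
      rw [h3] at this
      exact this
    · intro hx
      have hx' : g * x * g⁻¹ ∈ Q.1 := hx
      rw [← h3] at hx'
      obtain ⟨y, hy, hyx⟩ := hx'
      have : g * y * g⁻¹ = g * x * g⁻¹ := hyx
      have : y = x := by simpa using this
      rwa [← this]
  · intro h3
    ext x
    constructor
    · rintro ⟨y, hy, rfl⟩
      exact (h3 y).mp hy
    · intro hx
      refine ⟨g⁻¹ * x * g, (h3 _).mpr ?_, ?_⟩
      · have : g * (g⁻¹ * x * g) * g⁻¹ = x := by group
        rw [this]
        exact hx
      · change g * (g⁻¹ * x * g) * g⁻¹ = x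
        group

lemma numWeights_congr {G H : Type} [Group G] [Group H] [Finite G] [Finite H] (e : G ≃* H) :
    numWeights p G = numWeights p H := by
  have h1 := card_mul_numWeights p G
  have h2 := card_mul_numWeights p H
  have hG : Finite {Q : Subgroup G // IsPGroup p Q} := inferInstance
  have hH : Finite {Q : Subgroup H // IsPGroup p Q} := inferInstance
  have : Fintype {Q : Subgroup G // IsPGroup p Q} := Fintype.ofFinite _
  have : Fintype {Q : Subgroup H // IsPGroup p Q} := Fintype.ofFinite _
  let E : {Q : Subgroup G // IsPGroup p Q} ≃ {Q : Subgroup H // IsPGroup p Q} :=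
    { toFun := fun Q => ⟨Q.1.map e.toMonoidHom, Q.2.map _⟩
      invFun := fun Q => ⟨Q.1.map e.symm.toMonoidHom, Q.2.map _⟩
      left_inv := fun Q => by
        apply Subtype.ext
        change (Q.1.map e.toMonoidHom).map e.symm.toMonoidHom = Q.1
        rw [Subgroup.map_map]
        ext x
        simp [Subgroup.mem_map]
      right_inv := fun Q => by
        apply Subtype.ext
        change (Q.1.map e.symm.toMonoidHom).map e.toMonoidHom = Q.1
        rw [Subgroup.map_map]
        ext x
        simp [Subgroup.mem_map] }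
  have h3 : ∑ᶠ Q : {Q : Subgroup G // IsPGroup p Q},
        Nat.card (Subgroup.normalizer (Q.1 : Set G)) * loc p Q.1 =
      ∑ᶠ Q : {Q : Subgroup H // IsPGroup p Q},
        Nat.card (Subgroup.normalizer (Q.1 : Set H)) * loc p Q.1 := by
    rw [finsum_eq_sum_of_fintype, finsum_eq_sum_of_fintype]
    refine Fintype.sum_equiv E _ _ fun Q => ?_
    change _ = Nat.card (Subgroup.normalizer ((Q.1.map e.toMonoidHom : Subgroup H) : Set H)) *
      loc p (Q.1.map e.toMonoidHom)
    rw [loc_map]
    congr 1
    rw [← normalizer_map e Q.1]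
    exact Nat.card_congr (e.subgroupMap (Subgroup.normalizer (Q.1 : Set G))).toEquiv
  rw [h3, ← h2, Nat.card_congr e.toEquiv] at h1
  exact Nat.eq_of_mul_eq_mul_left Nat.card_pos h1

end Pool.Agent.Y63.AWC
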