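import Pool.Agent.Y63.AWC.Ch

/-!
# The degree of an irreducible character divides the group order
-/

open scoped BigOperators Classical MonoidAlgebra
open Representation Pool.Agent.Helper884.IC

noncomputable section

namespace Pool.Agent.Y63.AWC

variable {G : Type} [Group G] [Fintype G]

lemma top_scalar {V : Type} [AddCommGroup V] [Module ℂ V] [FiniteDimensional ℂ V]
    (rho : Representation ℂ G V) (hr : rho.IsIrreducible) (f : G → ℂ) (hf : IsClass f) :
    ∃ c : ℂ, Helper884.IC.Top rho f = c • LinearMap.id := by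
  have hcomm : ∀ (h : G) (v : V), Helper884.IC.Top rho f (rho h v) = rho h (Helper884.IC.Top rho f v) := by
    intro h v
    simp only [Helper884.IC.Top, LinearMap.sum_apply, LinearMap.smul_apply, map_sum, map_smul]
    have : ∀ g : G, rho g⁻¹ (rho h v) = rho h (rho (h⁻¹ * g⁻¹ * h) v) := by
      intro g
      rw [← Module.End.mul_apply, ← Module.End.mul_apply, ← map_mul, ← map_mul]
      congr 2
      group
    simp_rw [this]
    refine Fintype.sum_equiv (MulAut.conj h⁻¹).toEquiv _ _ ?_
    intro g
    have e1 : (MulAut.conj h⁻¹).toEquiv g = h⁻¹ * g * h := by simp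
    rw [e1]
    have h1 : f (h⁻¹ * g * h) = f g := by
      have := hf g h⁻¹
      simpa using this
    rw [h1]
    congr 4
    group
  let T : IntertwiningMap rho rho := (Helper884.IC.Top rho f).intertwiningMap_of_isIntertwiningMap rho rho hcomm
  obtain ⟨c, hc⟩ := (Representation.IsIrreducible.algebraMap_intertwiningMap_bijective_of_isAlgClosed
    (ρ := rho)).2 T
  refine ⟨c, ?_⟩
  ext v
  have := congrArg (fun S : IntertwiningMap rho rho => S v) hc
  have h2 : T v = Helper884.IC.Top rho f v := rfl
  rw [← h2]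
  exact this.symm

theorem deg_dvd {chi : G → ℂ} (h : IsIrrChar chi) {n : ℕ} (hn : chi 1 = (n : ℂ)) :
    n ∣ Nat.card G := by
  have hirr := h
  obtain ⟨V, _, _, _, rho, hr, rfl⟩ := h
  have hnt := irr_nontrivial rho hr
  have hn0 : n ≠ 0 := by
    rintro rfl
    exact one_ne hirr (by simpa using hn)
  obtain ⟨c, hc⟩ := top_scalar rho hr rho.character hirr.isClass
  -- the trace
  have htr : LinearMap.trace ℂ V (Helper884.IC.Top rho rho.character)
      = ∑ g : G, rho.character g * rho.character g⁻¹ := by
    simp [Helper884.IC.Top, Representation.character]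
  have hnorm : ∑ g : G, rho.character g * rho.character g⁻¹ = (Nat.card G : ℂ) := by
    have h1 := B_irr hirr hirr
    rw [if_pos rfl] at h1
    unfold B at h1
    have h2 := cardG_ne (G := G)
    field_simp at h1
    exact h1
  rw [hc, map_smul, LinearMap.trace_id, smul_eq_mul, ← rho.char_one, hn, hnorm] at htr
  -- integrality of `c`
  have hint : IsIntegral ℤ c := by
    let A : Subalgebra ℤ ℂ := Algebra.adjoin ℤ (Set.range rho.character)
    have hfg : (Subalgebra.toSubmodule A).FG := by
      apply fg_adjoin_of_finite (Set.finite_range _)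
      rintro _ ⟨g, rfl⟩
      exact isIntegral_char hirr g
    have hfin : Module.Finite ℤ A := Module.Finite.iff_fg.mpr hfg
    have hfin2 : Module.Finite ℤ (MonoidAlgebra A G) := by
      have : Module.Finite A (MonoidAlgebra A G) := inferInstance
      exact Module.Finite.trans A _
    let φ : MonoidAlgebra A G →ₐ[A] Module.End ℂ V := MonoidAlgebra.lift A (Module.End ℂ V) G rho
    let k : MonoidAlgebra A G := ∑ g : G, MonoidAlgebra.single g⁻¹
      (⟨rho.character g, Algebra.subset_adjoin ⟨g, rfl⟩⟩ : A)
    have hk : IsIntegral ℤ k := IsIntegral.of_finite ℤ k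
    have h1 : IsIntegral ℤ (φ k) := hk.map (φ.restrictScalars ℤ)
    have h2 : φ k = Helper884.IC.Top rho rho.character := by
      simp only [φ, k, map_sum, Helper884.IC.Top]
      refine Finset.sum_congr rfl fun g _ => ?_
      rw [MonoidAlgebra.lift_single]
      rfl
    rw [h2, hc] at h1
    have h3 : (c • (LinearMap.id : V →ₗ[ℂ] V)) = algebraMap ℂ (Module.End ℂ V) c := rfl
    rw [h3] at h1
    exact (isIntegral_algebraMap_iff
      (FaithfulSMul.algebraMap_injective ℂ (Module.End ℂ V))).mp h1
  have hcq : c = ((Nat.card G : ℚ) / (n : ℚ) : ℚ) := by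
    have : (n : ℂ) ≠ 0 := by exact_mod_cast hn0
    push_cast
    field_simp
    exact htr
  rw [hcq] at hint
  have hint2 : IsIntegral ℤ ((Nat.card G : ℚ) / (n : ℚ) : ℚ) := by
    have h5 : ((((Nat.card G : ℚ) / (n : ℚ) : ℚ)) : ℂ)
        = algebraMap ℚ ℂ ((Nat.card G : ℚ) / (n : ℚ) : ℚ) := rfl
    rw [h5] at hint
    exact (isIntegral_algebraMap_iff (FaithfulSMul.algebraMap_injective ℚ ℂ)).mp hint
  obtain ⟨z, hz⟩ := IsIntegrallyClosed.isIntegral_iff.mp hint2
  have hz2 : (z : ℚ) * n = Nat.card G := by
    have : (n : ℚ) ≠ 0 := by exact_mod_cast hn0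
    have hz' : (z : ℚ) = (Nat.card G : ℚ) / n := by simpa using hz
    rw [hz']
    field_simp
  have hz3 : (n : ℤ) ∣ (Nat.card G : ℤ) := ⟨z, by
    have : (z : ℤ) * n = (Nat.card G : ℤ) := by exact_mod_cast hz2
    rw [← this, mul_comm]⟩
  exact_mod_cast hz3

end Pool.Agent.Y63.AWC
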