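import Pool.Agent.Y63.AWC.Deg

/-!
# Characters and normal subgroups
-/

open scoped BigOperators Classical
open Representation Pool.Agent.Helper884.IC

set_option linter.unusedSectionVars false
set_option linter.style.haveILetI false

noncomputable section

namespace Pool.Agent.Y63.AWC

/-- transport of irreducible characters along an isomorphism -/
lemma irr_comp {H K : Type} [Group H] [Group K] (e : H ≃* K) {chi : K → ℂ} (h : IsIrrChar chi) :
    IsIrrChar (fun x => chi (e x)) := by
  obtain ⟨V, i1, i2, i3, rho, hr, rfl⟩ := h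
  let rho' : Representation ℂ H V := rho.comp e.toMonoidHom
  refine ⟨V, i1, i2, i3, rho', ?_, rfl⟩
  let F : Subrepresentation rho' ≃o Subrepresentation rho :=
    { toFun := fun S => ⟨S.toSubmodule, fun g v hv => by
        have := S.apply_mem_toSubmodule (e.symm g) hv
        have h2 : rho' (e.symm g) v = rho g v := by
          change rho (e (e.symm g)) v = _
          rw [e.apply_symm_apply]
        rwa [h2] at this⟩
      invFun := fun S => ⟨S.toSubmodule, fun g v hv => S.apply_mem_toSubmodule (e g) hv⟩
      left_inv := fun S => rfl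
      right_inv := fun S => rfl
      map_rel_iff' := Iff.rfl }
  exact F.isSimpleOrder_iff.mpr hr

variable {X : Type} [Group X] [Fintype X] (M : Subgroup X)

/-- restriction of a function to the subgroup `M` -/
def res (f : X → ℂ) : M → ℂ := fun m => f m

lemma res_class {f : X → ℂ} (hf : IsClass f) : IsClass (res M f) := by
  intro g y
  exact hf g y

/-- multiplicities are natural numbers -/
lemma mult_nat {chi : X → ℂ} {theta : M → ℂ} (h1 : IsIrrChar chi) (h2 : IsIrrChar theta) :
    ∃ k : ℕ, B (res M chi) theta = (k : ℂ) := by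
  obtain ⟨V, _, _, _, rho, hr, rfl⟩ := h1
  obtain ⟨W, _, _, _, sigma, hs, rfl⟩ := h2
  haveI : Invertible (Nat.card M : ℂ) := invertibleOfNonzero cardG_ne
  let rho' : Representation ℂ M V := rho.comp M.subtype
  have h := Representation.card_inv_mul_sum_char_mul_char_eq_finrank sigma rho'
  exact ⟨_, h⟩

/-- the multiplicity of `theta` in the restriction of `chi` -/
def mult (chi : X → ℂ) (theta : M → ℂ) : ℕ :=
  if h : ∃ k : ℕ, B (res M chi) theta = (k : ℂ) then h.choose else 0

lemma mult_spec {chi : X → ℂ} {theta : M → ℂ} (h1 : IsIrrChar chi) (h2 : IsIrrChar theta) :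
    B (res M chi) theta = (mult M chi theta : ℂ) := by
  have h := mult_nat M h1 h2
  unfold mult
  rw [dif_pos h]
  exact h.choose_spec

lemma res_eq {chi : X → ℂ} (h1 : IsIrrChar chi) :
    res M chi = ∑ theta ∈ Irr M, (mult M chi theta : ℂ) • theta := by
  conv_lhs => rw [expand (res M chi) (res_class M h1.isClass)]
  refine Finset.sum_congr rfl fun theta ht => ?_
  rw [mult_spec M h1 (mem_Irr.mp ht)]

variable [hM : M.Normal]

/-- the conjugate of a function on `M` -/
def cj (x : X) (theta : M → ℂ) : M → ℂ := fun m => theta (MulAut.conjNormal x m)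

lemma cj_irr (x : X) {theta : M → ℂ} (h : IsIrrChar theta) : IsIrrChar (cj M x theta) :=
  irr_comp (MulAut.conjNormal x) h

lemma cj_mul (x y : X) (theta : M → ℂ) : cj M (x * y) theta = cj M y (cj M x theta) := by
  funext m
  simp only [cj, map_mul, MulAut.mul_apply]

lemma cj_one (theta : M → ℂ) : cj M 1 theta = theta := by
  funext m
  simp [cj]

lemma cj_inv_iff (x : X) (theta theta' : M → ℂ) : cj M x theta = theta' ↔ theta = cj M x⁻¹ theta' := by
  constructor
  · rintro rfl
    rw [← cj_mul, mul_inv_cancel, cj_one]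
  · rintro rfl
    rw [← cj_mul, inv_mul_cancel, cj_one]

lemma cj_res {chi : X → ℂ} (h : IsClass chi) (x : X) : cj M x (res M chi) = res M chi := by
  funext m
  simp only [cj, res]
  rw [MulAut.conjNormal_apply, h]

lemma B_cj (x : X) (f h : M → ℂ) : B (cj M x f) (cj M x h) = B f h := by
  unfold B
  congr 1
  refine Fintype.sum_equiv (MulAut.conjNormal x).toEquiv _ _ fun m => ?_
  simp only [cj, MulEquiv.toEquiv_eq_coe, EquivLike.coe_coe, map_inv]

lemma mult_cj {chi : X → ℂ} {theta : M → ℂ} (h1 : IsIrrChar chi) (h2 : IsIrrChar theta) (x : X) :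
    mult M chi (cj M x theta) = mult M chi theta := by
  have h3 := mult_spec M h1 (cj_irr M x h2)
  have h4 := mult_spec M h1 h2
  have h5 : B (res M chi) (cj M x theta) = B (res M chi) theta := by
    conv_lhs => rw [← cj_res M h1.isClass x]
    exact B_cj M x _ _
  rw [h3, h4] at h5
  exact_mod_cast h5

/-- the induced class function -/
def ind (theta : M → ℂ) : X → ℂ := fun g =>
  if h : g ∈ M then (Nat.card M : ℂ)⁻¹ * ∑ x : X, cj M x theta ⟨g, h⟩ else 0

lemma ind_class (theta : M → ℂ) : IsClass (ind M theta) := by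
  intro g y
  unfold ind
  by_cases h : g ∈ M
  · have h' : y * g * y⁻¹ ∈ M := hM.conj_mem g h y
    rw [dif_pos h, dif_pos h']
    congr 1
    refine Fintype.sum_equiv (Equiv.mulRight y) _ _ fun x => ?_
    simp only [Equiv.coe_mulRight, cj]
    congr 1
    apply Subtype.ext
    rw [MulAut.conjNormal_apply, MulAut.conjNormal_apply]
    group
  · have h' : y * g * y⁻¹ ∉ M := by
      intro h'
      apply h
      have := hM.conj_mem _ h' y⁻¹
      have e : y⁻¹ * (y * g * y⁻¹) * y⁻¹⁻¹ = g := by group
      rwa [e] at this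
    rw [dif_neg h, dif_neg h']

lemma sum_M (f : X → ℂ) (hf : ∀ g, g ∉ M → f g = 0) : ∑ g : X, f g = ∑ m : M, f m := by
  rw [← Finset.sum_subtype (Finset.univ.filter (· ∈ M)) (by simp) f]
  symm
  apply Finset.sum_subset (Finset.filter_subset _ _)
  intro x _ hx
  apply hf
  simpa using hx

/-- Frobenius reciprocity -/
lemma B_ind (theta : M → ℂ) {f : X → ℂ} (hf : IsClass f) : B (ind M theta) f = B theta (res M f) := by
  have h1 : B (ind M theta) f = (Nat.card X : ℂ)⁻¹ * ((Nat.card M : ℂ)⁻¹ *
      ∑ m : M, ∑ x : X, cj M x theta m * res M f m⁻¹) := by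
    unfold B
    rw [sum_M M (fun g => ind M theta g * f g⁻¹) (by
      intro g hg
      simp [ind, hg])]
    congr 1
    rw [Finset.mul_sum]
    refine Finset.sum_congr rfl fun m _ => ?_
    simp only [ind, SetLike.coe_mem, dif_pos, Subtype.coe_eta, res]
    rw [mul_assoc, Finset.sum_mul]
    simp only [InvMemClass.coe_inv]
  rw [h1, Finset.sum_comm]
  have h2 : ∀ x : X, ∑ m : M, cj M x theta m * res M f m⁻¹ = ∑ m : M, theta m * res M f m⁻¹ := by
    intro x
    refine Fintype.sum_equiv (MulAut.conjNormal x).toEquiv _ _ fun m => ?_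
    simp only [cj, MulEquiv.toEquiv_eq_coe, EquivLike.coe_coe]
    congr 1
    have := congrFun (cj_res M hf x) m⁻¹
    simp only [cj, map_inv] at this
    exact this.symm
  rw [Finset.sum_congr rfl fun x _ => h2 x, Finset.sum_const, Finset.card_univ, nsmul_eq_mul]
  unfold B
  have hX := cardG_ne (G := X)
  rw [Nat.card_eq_fintype_card] at hX ⊢
  field_simp

lemma ind_eq (theta : M → ℂ) (ht : IsIrrChar theta) :
    ind M theta = ∑ chi ∈ Irr X, (mult M chi theta : ℂ) • chi := by
  conv_lhs => rw [expand (ind M theta) (ind_class M theta)]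
  refine Finset.sum_congr rfl fun chi hc => ?_
  have hc' := mem_Irr.mp hc
  rw [B_ind M theta hc'.isClass, B_comm, mult_spec M hc' ht]

lemma B_res_ind (theta theta' : M → ℂ) (h : IsIrrChar theta) (h' : IsIrrChar theta') :
    B theta (res M (ind M theta')) =
      (Nat.card M : ℂ)⁻¹ * (Nat.card {x : X // cj M x theta' = theta} : ℂ) := by
  have h1 : res M (ind M theta') = (Nat.card M : ℂ)⁻¹ • ∑ x : X, cj M x theta' := by
    funext m
    simp [res, ind]
  rw [B_comm, h1, B_smul_left, B_sum_left]
  congr 1
  rw [Finset.sum_congr rfl fun x _ => B_irr (cj_irr M x h') h, Finset.sum_boole,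
    Nat.card_eq_fintype_card, Fintype.card_subtype]

/-- the main identity of Clifford theory -/
theorem clifford (theta theta' : M → ℂ) (h : IsIrrChar theta) (h' : IsIrrChar theta') :
    Nat.card M * ∑ chi ∈ Irr X, mult M chi theta * mult M chi theta' =
      Nat.card {x : X // cj M x theta' = theta} := by
  have h1 := B_ind M theta (ind_class M theta')
  rw [B_res_ind M theta theta' h h', ind_eq M theta h, B_sum_left] at h1
  have h2 : ∀ chi ∈ Irr X, B ((mult M chi theta : ℂ) • chi) (ind M theta')
      = (mult M chi theta : ℂ) * (mult M chi theta' : ℂ) := by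
    intro chi hc
    have hc' := mem_Irr.mp hc
    rw [B_smul_left, B_comm, B_ind M theta' hc'.isClass, B_comm, mult_spec M hc' h']
  rw [Finset.sum_congr rfl h2] at h1
  have hM := cardG_ne (G := M)
  have h3 : (Nat.card M : ℂ) * ∑ chi ∈ Irr X, (mult M chi theta : ℂ) * (mult M chi theta' : ℂ) =
      (Nat.card {x : X // cj M x theta' = theta} : ℂ) := by
    rw [h1]
    field_simp
  exact_mod_cast h3

/-- characters of `M` fixed by `x`, counted by commuting pairs -/
theorem fix_count (x : X) :
    Nat.card M * ((Irr M).filter fun theta => cj M x theta = theta).card =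
      Nat.card {q : M × M // q.2 * MulAut.conjNormal x q.1 * q.2⁻¹ = q.1} := by
  have hM := cardG_ne (G := M)
  have h1 : (((Irr M).filter fun theta => cj M x theta = theta).card : ℂ)
      = ∑ theta ∈ Irr M, B (cj M x theta) theta := by
    rw [Finset.card_filter, Nat.cast_sum]
    refine Finset.sum_congr rfl fun theta ht => ?_
    rw [B_irr (cj_irr M x (mem_Irr.mp ht)) (mem_Irr.mp ht)]
    split_ifs <;> simp
  have h2 : ∑ theta ∈ Irr M, B (cj M x theta) theta =
      (Nat.card M : ℂ)⁻¹ * ∑ m : M, (Nat.card {n : M // n * MulAut.conjNormal x m * n⁻¹ = m} : ℂ) := by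
    unfold B
    rw [← Finset.mul_sum, Finset.sum_comm]
    congr 1
    refine Finset.sum_congr rfl fun m _ => ?_
    rw [← col_orth]
    rfl
  have h3 : Nat.card {q : M × M // q.2 * MulAut.conjNormal x q.1 * q.2⁻¹ = q.1}
      = ∑ m : M, Nat.card {n : M // n * MulAut.conjNormal x m * n⁻¹ = m} := by
    have e : {q : M × M // q.2 * MulAut.conjNormal x q.1 * q.2⁻¹ = q.1} ≃
        (Σ m : M, {n : M // n * MulAut.conjNormal x m * n⁻¹ = m}) :=
      { toFun := fun q => ⟨q.1.1, q.1.2, q.2⟩
        invFun := fun s => ⟨(s.1, s.2.1), s.2.2⟩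
        left_inv := fun q => rfl
        right_inv := fun s => rfl }
    rw [Nat.card_congr e, Nat.card_sigma]
  have h4 : ((Nat.card M * ((Irr M).filter fun theta => cj M x theta = theta).card : ℕ) : ℂ)
      = ((Nat.card {q : M × M // q.2 * MulAut.conjNormal x q.1 * q.2⁻¹ = q.1} : ℕ) : ℂ) := by
    rw [h3, Nat.cast_mul, h1, h2]
    push_cast
    field_simp
  exact_mod_cast h4

end Pool.Agent.Y63.AWC
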