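import Pool.Agent.Helper884.IC.Compl

/-!
# Character theory of finite groups: degrees, column orthogonality, restriction to normal subgroups
-/

open scoped BigOperators Classical
open Representation Pool.Agent.Helper884.IC

noncomputable section

namespace Pool.Agent.Y63.AWC

variable {G : Type} [Group G]

lemma irr_nontrivial {V : Type} [AddCommGroup V] [Module ℂ V] [FiniteDimensional ℂ V]
    (rho : Representation ℂ G V) (hirr : rho.IsIrreducible) : Nontrivial V := by
  by_contra hn
  rw [not_nontrivial_iff_subsingleton] at hn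
  have : Subsingleton (Subrepresentation rho) := by
    constructor
    intro a b
    ext x
    have : x = 0 := Subsingleton.elim _ _
    subst this
    simp
  have h5 := hirr.toNontrivial
  exact not_subsingleton (Subrepresentation rho) this

lemma deg_nat {chi : G → ℂ} (h : IsIrrChar chi) : ∃ n : ℕ, 0 < n ∧ chi 1 = (n : ℂ) := by
  obtain ⟨V, _, _, _, rho, hr, rfl⟩ := h
  have := irr_nontrivial rho hr
  exact ⟨Module.finrank ℂ V, Module.finrank_pos, rho.char_one⟩

lemma one_ne {chi : G → ℂ} (h : IsIrrChar chi) : chi 1 ≠ 0 := by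
  obtain ⟨n, hn, h1⟩ := deg_nat h
  rw [h1]
  exact_mod_cast hn.ne'

variable [Fintype G]

/-- column orthogonality -/
lemma col_orth (a b : G) :
    ∑ chi ∈ Irr G, chi a * chi b⁻¹ = (Nat.card {n : G // n * a * n⁻¹ = b} : ℂ) := by
  set f : G → ℂ := fun g => (Nat.card {n : G // n * g * n⁻¹ = b} : ℂ) with hf
  have hcl : IsClass f := by
    intro g y
    simp only [hf]
    congr 1
    refine Nat.card_congr ((Equiv.mulRight y).subtypeEquiv fun n => ?_)
    simp only [Equiv.coe_mulRight]
    constructor
    · intro h
      rw [← h]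
      group
    · intro h
      rw [← h]
      group
  have hB : ∀ chi ∈ Irr G, B f chi = chi b⁻¹ := by
    intro chi hchi
    have hc := (mem_Irr.mp hchi).isClass
    unfold B
    have h1 : ∀ g : G, f g * chi g⁻¹ = ∑ n : G, if n * g * n⁻¹ = b then chi g⁻¹ else 0 := by
      intro g
      simp only [hf]
      rw [Nat.card_eq_fintype_card, Fintype.card_subtype, ← Finset.sum_filter,
        Finset.sum_const, nsmul_eq_mul]
    rw [Finset.sum_congr rfl fun g _ => h1 g, Finset.sum_comm]
    have h2 : ∀ n : G, (∑ g : G, if n * g * n⁻¹ = b then chi g⁻¹ else 0) = chi b⁻¹ := by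
      intro n
      rw [Finset.sum_eq_single (n⁻¹ * b * n)]
      · rw [if_pos (by group)]
        have h3 := hc ((n⁻¹ * b * n)⁻¹) n
        rw [← h3]
        congr 1
        group
      · intro g _ hg
        rw [if_neg]
        intro h
        apply hg
        rw [← h]
        group
      · intro h
        exact absurd (Finset.mem_univ _) h
    rw [Finset.sum_congr rfl fun n _ => h2 n, Finset.sum_const, Finset.card_univ, nsmul_eq_mul,
      Nat.card_eq_fintype_card, ← mul_assoc, inv_mul_cancel₀, one_mul]
    have := cardG_ne (G := G)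
    rwa [Nat.card_eq_fintype_card] at this
  have h4 := congrFun (expand f hcl) a
  rw [Finset.sum_apply] at h4
  rw [hf] at h4
  simp only at h4
  rw [h4]
  refine Finset.sum_congr rfl fun chi hchi => ?_
  rw [Pi.smul_apply, smul_eq_mul, ← hf, hB chi hchi, mul_comm]

lemma isIntegral_char {chi : G → ℂ} (h : IsIrrChar chi) (g : G) : IsIntegral ℤ (chi g) := by
  obtain ⟨V, _, _, _, ρ, hr, rfl⟩ := h
  unfold Representation.character
  rw [Module.End.trace_eq_sum_roots_charpoly_of_splits (IsAlgClosed.splits _)]
  have key : ∀ μ ∈ (LinearMap.charpoly (ρ g)).roots, IsIntegral ℤ μ := by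
    intro μ hμ
    have h1 : (LinearMap.charpoly (ρ g)).IsRoot μ := (Polynomial.mem_roots'.mp hμ).2
    have h2 := (Module.End.hasEigenvalue_iff_isRoot_charpoly (ρ g) μ).mpr h1
    obtain ⟨v, hv⟩ := h2.exists_hasEigenvector
    have h3 : ∀ n : ℕ, ((ρ g) ^ n) v = μ ^ n • v := fun n => by
      induction n with
      | zero => simp
      | succ n ih =>
        rw [pow_succ', Module.End.mul_apply, ih, map_smul, hv.apply_eq_smul, smul_smul, pow_succ]
    have h4 := h3 (orderOf g)
    rw [← map_pow, pow_orderOf_eq_one, map_one, Module.End.one_apply] at h4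
    have h5 : μ ^ orderOf g = 1 := by
      have h6 : (μ ^ orderOf g - 1) • v = 0 := by
        rw [sub_smul, one_smul, ← h4, sub_self]
      rcases smul_eq_zero.mp h6 with h7 | h7
      · exact sub_eq_zero.mp h7
      · exact absurd h7 hv.2
    refine ⟨Polynomial.X ^ orderOf g - 1, Polynomial.monic_X_pow_sub_C 1 (orderOf_pos g).ne' , ?_⟩
    simp [h5]
  generalize (LinearMap.charpoly (ρ g)).roots = s at key
  induction s using Multiset.induction_on with
  | empty => simpa using isIntegral_zero
  | cons a s ih =>
    rw [Multiset.sum_cons]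
    exact (key a (Multiset.mem_cons_self a s)).add
      (ih (fun μ hμ => key μ (Multiset.mem_cons_of_mem hμ)))

end Pool.Agent.Y63.AWC
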