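import Pool.Agent.Y63.AWC.Wt

/-!
# Weights of groups with a normal `p`-complement and cyclic Sylow `p`-subgroups
-/

open scoped BigOperators Classical
open Representation Pool.Agent.Helper884.IC

set_option linter.unusedSectionVars false
set_option linter.style.haveILetI false

noncomputable section

namespace Pool.Agent.Y63.AWC

variable {p : ℕ} [hp : Fact p.Prime]

lemma numDefectZero_eq {X : Type} [Group X] [Fintype X] :
    numDefectZero p X = ((Irr X).filter fun chi => DZ p chi).card := by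
  unfold numDefectZero
  rw [← Fintype.card_coe, ← Nat.card_eq_fintype_card]
  refine Nat.card_congr (Equiv.subtypeEquivRight fun chi => ?_)
  rw [Finset.mem_filter, mem_Irr]
  rfl

/-- fibrewise counting -/
lemma fiber_sum {α β : Type} [Finite α] [Fintype β] (P : α → Prop) (F : α → β) :
    ∑ b : β, Nat.card {a : α // P a ∧ F a = b} = Nat.card {a : α // P a} := by
  have : Fintype α := Fintype.ofFinite α
  rw [← Nat.card_sigma]
  exact Nat.card_congr
    { toFun := fun s => ⟨s.2.1, s.2.2.1⟩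
      invFun := fun a => ⟨F a.1, ⟨a.1, a.2, rfl⟩⟩
      left_inv := by
        rintro ⟨b, ⟨a, ha, rfl⟩⟩
        rfl
      right_inv := fun a => rfl }

section expo

variable {G : Type} [Group G] [Finite G] (K : Subgroup G) [K.Normal]

/-- exponents giving the `p`-part and the `p'`-part -/
lemma exists_exponents (hK : ¬ p ∣ Nat.card K) (hC : IsPGroup p (G ⧸ K)) :
    ∃ e e' : ℕ, (∀ g : G, g ^ e * g ^ e' = g) ∧ (∀ g : G, g ^ e' ∈ K) ∧ (∀ g ∈ K, g ^ e = 1) ∧
      (∀ Q : Subgroup G, IsPGroup p Q → ∀ g ∈ Q, g ^ e = g) ∧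
      (∀ g : G, IsPGroup p (Subgroup.zpowers (g ^ e))) := by
  obtain ⟨A, hA⟩ := IsPGroup.iff_card.mp hC
  have hcop : Nat.Coprime (p ^ A) (Nat.card K) :=
    Nat.Coprime.pow_left _ ((Nat.Prime.coprime_iff_not_dvd hp.out).mpr hK)
  have hG : Nat.card G = p ^ A * Nat.card K := by
    rw [← hA]
    exact Subgroup.card_eq_card_quotient_mul_card_subgroup K
  obtain ⟨e, he1, he2⟩ := Nat.chineseRemainder hcop 1 0
  have hke : Nat.card K ∣ e := (Nat.modEq_zero_iff_dvd).mp he2
  have hpos : 0 < p ^ A * Nat.card K := by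
    rw [← hG]
    exact Nat.card_pos
  have hsplit : ∀ g : G, g ^ e * g ^ (e * (p ^ A * Nat.card K - 1) + 1) = g := by
    intro g
    rw [← pow_add]
    have : e + (e * (p ^ A * Nat.card K - 1) + 1) = Nat.card G * e + 1 := by
      rw [hG]
      obtain ⟨n, hn⟩ := Nat.exists_eq_succ_of_ne_zero hpos.ne'
      rw [hn]
      simp only [Nat.succ_eq_add_one, Nat.add_sub_cancel]
      ring
    rw [this, pow_succ, pow_mul, pow_card_eq_one', one_pow, one_mul]
  have hmod : ∀ {H : Type} [Group H] (x : H), x ^ (p ^ A) = 1 → x ^ e = x := by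
    intro H _ x hx
    conv_rhs => rw [← pow_one x]
    rw [pow_eq_pow_iff_modEq]
    exact he1.of_dvd (orderOf_dvd_of_pow_eq_one hx)
  have hq : ∀ c : G ⧸ K, c ^ e = c := by
    intro c
    apply hmod
    rw [← hA]
    exact pow_card_eq_one'
  have hPe : ∀ g : G, (g ^ e) ^ (p ^ A) = 1 := by
    intro g
    obtain ⟨f, hf⟩ := hke
    rw [← pow_mul]
    have : e * p ^ A = Nat.card G * f := by
      rw [hG, hf]
      ring
    rw [this, pow_mul, pow_card_eq_one', one_pow]
  refine ⟨e, e * (p ^ A * Nat.card K - 1) + 1, hsplit, ?_, ?_, ?_, ?_⟩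
  · intro g
    have h1 := congrArg (QuotientGroup.mk' K) (hsplit g)
    rw [map_mul, map_pow, hq] at h1
    have h2 : (QuotientGroup.mk' K) (g ^ (e * (p ^ A * Nat.card K - 1) + 1)) = 1 := by
      exact mul_eq_left.mp h1
    rw [← QuotientGroup.eq_one_iff]
    exact h2
  · intro g hg
    obtain ⟨f, hf⟩ := hke
    have h2 : (⟨g, hg⟩ : K) ^ e = 1 := by
      rw [hf, pow_mul, pow_card_eq_one', one_pow]
    exact congrArg Subtype.val h2
  · intro Q hQ g hg
    apply hmod
    obtain ⟨j, hj⟩ := hQ ⟨g, hg⟩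
    have hj' : g ^ (p ^ j) = 1 := congrArg Subtype.val hj
    have h1 : orderOf g ∣ p ^ j := orderOf_dvd_of_pow_eq_one hj'
    have h2 : orderOf g ∣ p ^ A * Nat.card K := hG ▸ orderOf_dvd_natCard g
    have h3 : Nat.Coprime (orderOf g) (Nat.card K) :=
      Nat.Coprime.coprime_dvd_left h1
        (Nat.Coprime.pow_left _ ((Nat.Prime.coprime_iff_not_dvd hp.out).mpr hK))
    exact orderOf_dvd_iff_pow_eq_one.mp (h3.dvd_of_dvd_mul_right h2)
  · intro g x
    obtain ⟨x, hx⟩ := x
    obtain ⟨j, rfl⟩ := Subgroup.mem_zpowers_iff.mp hx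
    refine ⟨A, ?_⟩
    apply Subtype.ext
    change ((g ^ e) ^ j) ^ (p ^ A) = 1
    rw [← zpow_natCast, ← zpow_mul, mul_comm, zpow_mul, zpow_natCast, hPe, one_zpow]

/-- the data of a group with a normal `p`-complement and exponents as above -/
structure Expo (p : ℕ) {G : Type} [Group G] (K : Subgroup G) (e e' : ℕ) : Prop where
  split : ∀ g : G, g ^ e * g ^ e' = g
  mem : ∀ g : G, g ^ e' ∈ K
  one : ∀ g ∈ K, g ^ e = 1
  self : ∀ Q : Subgroup G, IsPGroup p Q → ∀ g ∈ Q, g ^ e = g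
  pgrp : ∀ g : G, IsPGroup p (Subgroup.zpowers (g ^ e))

lemma exists_Expo (hK : ¬ p ∣ Nat.card K) (hC : IsPGroup p (G ⧸ K)) :
    ∃ e e' : ℕ, Expo p K e e' := by
  obtain ⟨e, e', h1, h2, h3, h4, h5⟩ := exists_exponents K hK hC
  exact ⟨e, e', h1, h2, h3, h4, h5⟩

variable {K} {e e' : ℕ} (E : Expo p K e e')

include E

lemma Expo.inter {Q : Subgroup G} (hQ : IsPGroup p Q) {x : G} (h1 : x ∈ Q) (h2 : x ∈ K) :
    x = 1 := by
  rw [← E.self Q hQ x h1, E.one x h2]

lemma Expo.comm [IsCyclic (G ⧸ K)] {Q : Subgroup G} (hQ : IsPGroup p Q) {x q : G}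
    (hx : x ∈ Subgroup.normalizer (Q : Set G)) (hq : q ∈ Q) : x * q = q * x := by
  have h1 : x * q * x⁻¹ * q⁻¹ ∈ Q := Q.mul_mem ((Subgroup.mem_normalizer_iff.mp hx q).mp hq)
    (Q.inv_mem hq)
  have h2 : x * q * x⁻¹ * q⁻¹ ∈ K := by
    rw [← QuotientGroup.eq_one_iff]
    have hc : ∀ a b : G ⧸ K, a * b = b * a := (IsCyclic.commGroup (α := G ⧸ K)).mul_comm
    have : ((x * q * x⁻¹ * q⁻¹ : G) : G ⧸ K) = (x : G ⧸ K) * q * (x : G ⧸ K)⁻¹ * (q : G ⧸ K)⁻¹ := rfl
    rw [this, hc (x : G ⧸ K) q]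
    group
  have h3 := E.inter hQ h1 h2
  have h4 : x * q * x⁻¹ = q := by
    have := mul_inv_eq_one.mp h3
    exact this
  exact mul_inv_eq_iff_eq_mul.mp h4

lemma mem_norm_of_comm {Q : Subgroup G} {x : G} (h : ∀ q ∈ Q, x * q = q * x) :
    x ∈ Subgroup.normalizer (Q : Set G) := by
  rw [Subgroup.mem_normalizer_iff]
  intro q
  constructor
  · intro hq
    rw [h q hq, mul_inv_cancel_right]
    exact hq
  · intro hq
    have h1 := h _ hq
    have h2 : x * (x * q * x⁻¹) = x * (q * 1) := by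
      rw [h1]
      group
    have h3 := mul_left_cancel h2
    rw [mul_one] at h3
    rw [← h3]
    exact hq

/-- the pointwise description of the pairs contributing to `Q` -/
lemma Expo.pointwise [IsCyclic (G ⧸ K)] (hC : IsPGroup p (G ⧸ K)) {Q : Subgroup G}
    (hQ : IsPGroup p Q) {m g : G}
    (_hm : m ∈ K) (hmg : m * g = g * m) :
    ((m ∈ Subgroup.normalizer (Q : Set G) ∧ g ∈ Subgroup.normalizer (Q : Set G)) ∧
      (g ∉ Q ⊔ K ∧ g ^ p ∈ Q ⊔ K)) ↔ (g ∉ K ∧ Subgroup.zpowers ((g ^ e) ^ p) = Q) := by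
  obtain ⟨A, hA⟩ := IsPGroup.iff_card.mp hC
  have hord : ∀ c : G ⧸ K, c ^ (p ^ A) = 1 := by
    intro c
    rw [← hA]
    exact pow_card_eq_one'
  have hgu : ∀ g : G, ((g ^ e : G) : G ⧸ K) = g := by
    intro g
    have h1 := congrArg (QuotientGroup.mk' K) (E.split g)
    rw [map_mul] at h1
    have h2 : (QuotientGroup.mk' K) (g ^ e') = 1 := (QuotientGroup.eq_one_iff _).mpr (E.mem g)
    rw [h2, mul_one] at h1
    exact h1
  have hcopr : ∀ j : ℤ, ¬ (p : ℤ) ∣ j → IsCoprime j ((p ^ A : ℕ) : ℤ) := by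
    intro j hj
    push_cast
    apply IsCoprime.pow_right
    exact ((Irreducible.coprime_iff_not_dvd (Nat.prime_iff_prime_int.mp hp.out).irreducible).mpr
      hj).symm
  constructor
  · rintro ⟨⟨hmN, hgN⟩, h1, h2⟩
    refine ⟨fun h3 => h1 (Subgroup.mem_sup_right h3), ?_⟩
    have huN : g ^ e ∈ Subgroup.normalizer (Q : Set G) := Subgroup.pow_mem _ hgN e
    have hu1 : g ^ e ∉ Q ⊔ K := by
      intro h3
      apply h1
      rw [← E.split g]
      exact Subgroup.mul_mem _ h3 (Subgroup.mem_sup_right (E.mem g))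
    have hu2 : (g ^ e) ^ p ∈ Q ⊔ K := by
      rw [← pow_mul, mul_comm, pow_mul]
      exact Subgroup.pow_mem _ h2 e
    have hu3 : (g ^ e) ^ p ∈ Q := by
      obtain ⟨q, hq, k, hk, hqk⟩ := Subgroup.mem_sup_of_normal_right.mp hu2
      have h3 : (q⁻¹ * (g ^ e) ^ p) ^ e = q⁻¹ * (g ^ e) ^ p := by
        have hc : Commute q⁻¹ ((g ^ e) ^ p) := by
          apply Commute.inv_left
          apply Commute.pow_right
          exact (E.comm hQ huN hq).symm
        rw [hc.mul_pow, E.self Q hQ q⁻¹ (Q.inv_mem hq)]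
        congr 1
        rw [← pow_mul, mul_comm p e, pow_mul, E.self _ (E.pgrp g) _ (Subgroup.mem_zpowers _)]
      have h4 : q⁻¹ * (g ^ e) ^ p = k := by
        rw [← hqk]
        group
      rw [h4, E.one k hk] at h3
      rw [← h3, mul_one] at hqk
      rw [← hqk]
      exact hq
    apply le_antisymm
    · rw [Subgroup.zpowers_le]
      exact hu3
    · intro q hq
      have htot := cyc_total hC (Q.map (QuotientGroup.mk' K))
        (Subgroup.zpowers (QuotientGroup.mk' K (g ^ e)))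
      have hnot : ∀ q ∈ Q, QuotientGroup.mk' K (g ^ e) ≠ QuotientGroup.mk' K q := by
        intro q hq h3
        apply hu1
        have h4 : q⁻¹ * g ^ e ∈ K := by
          rw [← QuotientGroup.eq]
          exact h3.symm
        have h5 : g ^ e = q * (q⁻¹ * g ^ e) := by group
        rw [h5]
        exact Subgroup.mul_mem _ (Subgroup.mem_sup_left hq) (Subgroup.mem_sup_right h4)
      rcases htot with h3 | h3
      · have h4 : QuotientGroup.mk' K q ∈ Subgroup.zpowers (QuotientGroup.mk' K (g ^ e)) :=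
          h3 (Subgroup.mem_map_of_mem _ hq)
        obtain ⟨j, hj⟩ := Subgroup.mem_zpowers_iff.mp h4
        by_cases hpj : (p : ℤ) ∣ j
        · obtain ⟨i, rfl⟩ := hpj
          have h5 : q⁻¹ * ((g ^ e) ^ p) ^ i ∈ K := by
            rw [← QuotientGroup.eq]
            change QuotientGroup.mk' K q = QuotientGroup.mk' K (((g ^ e) ^ p) ^ i)
            rw [map_zpow, map_pow, ← hj, zpow_mul, zpow_natCast]
          have h6 : q⁻¹ * ((g ^ e) ^ p) ^ i ∈ Q :=
            Q.mul_mem (Q.inv_mem hq) (Q.zpow_mem hu3 i)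
          have h7 := E.inter hQ h6 h5
          rw [inv_mul_eq_one] at h7
          rw [h7]
          exact Subgroup.zpow_mem_zpowers _ _
        · exfalso
          obtain ⟨s, t, hst⟩ := hcopr j hpj
          apply hnot (q ^ s) (Q.zpow_mem hq s)
          rw [map_zpow, ← hj, ← zpow_mul]
          have h5 : j * s = 1 - ((p ^ A : ℕ) : ℤ) * t := by
            rw [← hst]
            ring
          rw [h5, zpow_sub, zpow_one, zpow_mul, zpow_natCast, hord, one_zpow, inv_one, mul_one]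
      · exfalso
        obtain ⟨q', hq', h4⟩ := h3 (Subgroup.mem_zpowers _)
        exact hnot q' hq' h4.symm
  · rintro ⟨h1, rfl⟩
    have hcm : ∀ x : G, Commute x g → x ∈
        Subgroup.normalizer ((Subgroup.zpowers ((g ^ e) ^ p) : Subgroup G) : Set G) := by
      intro x hx
      apply mem_norm_of_comm E
      intro q hq
      obtain ⟨j, rfl⟩ := Subgroup.mem_zpowers_iff.mp hq
      exact (((hx.pow_right e).pow_right p).zpow_right j)
    refine ⟨⟨hcm m hmg, hcm g rfl⟩, ?_, ?_⟩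
    · intro h2
      obtain ⟨q, hq, k, hk, hqk⟩ := Subgroup.mem_sup_of_normal_right.mp h2
      obtain ⟨j, rfl⟩ := Subgroup.mem_zpowers_iff.mp hq
      have h3 : (g : G ⧸ K) = ((g : G ⧸ K) ^ p) ^ j := by
        have h4 : ((((g ^ e) ^ p) ^ j * k : G) : G ⧸ K) = ((g : G ⧸ K) ^ p) ^ j := by
          rw [QuotientGroup.mk_mul, (QuotientGroup.eq_one_iff k).mpr hk, mul_one,
            QuotientGroup.mk_zpow, QuotientGroup.mk_pow, hgu]
        rw [← h4, hqk]
      have h5 : ¬ (p : ℤ) ∣ (1 - (p : ℤ) * j) := by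
        intro h6
        have h7 : (p : ℤ) ∣ 1 := by
          have := (dvd_add h6 (Dvd.intro j rfl : (p : ℤ) ∣ (p : ℤ) * j))
          simpa using this
        have h8 := (Nat.prime_iff_prime_int.mp hp.out).not_isUnit
        exact h8 (isUnit_of_dvd_one h7)
      obtain ⟨s, t, hst⟩ := hcopr _ h5
      have h6 : (g : G ⧸ K) ^ (1 - (p : ℤ) * j) = 1 := by
        rw [zpow_sub, zpow_one, zpow_mul, zpow_natCast, ← h3, mul_inv_cancel]
      have h7 : (g : G ⧸ K) = 1 := by
        calc (g : G ⧸ K) = (g : G ⧸ K) ^ (s * (1 - (p : ℤ) * j) + t * ((p ^ A : ℕ) : ℤ)) := by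
              rw [hst, zpow_one]
          _ = 1 := by
              rw [zpow_add, mul_comm s, zpow_mul, h6, one_zpow, mul_comm t, zpow_mul, zpow_natCast,
                hord, one_zpow, one_mul]
      exact h1 ((QuotientGroup.eq_one_iff g).mp h7)
    · have hc : Commute (g ^ e) (g ^ e') := (Commute.refl g).pow_pow e e'
      have h2 : g ^ p = (g ^ e) ^ p * (g ^ e') ^ p := by
        conv_lhs => rw [← E.split g]
        exact hc.mul_pow p
      rw [h2]
      exact Subgroup.mul_mem _ (Subgroup.mem_sup_left (Subgroup.mem_zpowers _))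
        (Subgroup.mem_sup_right (K.pow_mem (E.mem g) p))

end expo

section loccount

variable {G : Type} [Group G] [Finite G] {K : Subgroup G} [K.Normal] {e e' : ℕ}

/-- the number of commuting pairs in `K ∩ N_G(Q)` -/
def cpn (K Q : Subgroup G) : ℕ :=
  Nat.card {q : K.subgroupOf (Subgroup.normalizer (Q : Set G)) ×
    K.subgroupOf (Subgroup.normalizer (Q : Set G)) // q.1 * q.2 = q.2 * q.1}

theorem local_formula (E : Expo p K e e') [IsCyclic (G ⧸ K)] (hC : IsPGroup p (G ⧸ K))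
    (hK : ¬ p ∣ Nat.card K) {Q : Subgroup G} (hQ : IsPGroup p Q) :
    (p - 1) * (Nat.card (Subgroup.normalizer (Q : Set G)) * loc p Q) +
      Nat.card {q : G × G // (q.1 ∈ K ∧ q.1 * q.2 = q.2 * q.1 ∧ q.2 ∉ K) ∧
        Subgroup.zpowers ((q.2 ^ e) ^ p) = Q} =
    (p - 1) * (Nat.card Q * cpn K Q) := by
  set N := Subgroup.normalizer (Q : Set G) with hN
  set Q' := Q.subgroupOf N with hQ'
  set K' := K.subgroupOf N with hK'
  have hQN : Q ≤ N := Subgroup.le_normalizer
  set π := QuotientGroup.mk' Q' with hπ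
  have hπs : Function.Surjective π := QuotientGroup.mk'_surjective Q'
  set M := K'.map π with hM
  have hMn : M.Normal := Subgroup.Normal.map inferInstance π hπs
  have hcQ : Nat.card Q' = Nat.card Q := Nat.card_congr (Subgroup.subgroupOfEquivOfLe hQN).toEquiv
  -- restriction to `K'`
  let θ : K' →* M := π.subgroupMap K'
  have hθs : Function.Surjective θ := MonoidHom.subgroupMap_surjective π K'
  have hθ : ∀ m : K', ((θ m : M) : N ⧸ Q') = π m := fun m => rfl
  have hone : ∀ x : N, x ∈ Q' → x ∈ K' → x = 1 := by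
    intro x h1 h2
    apply Subtype.ext
    exact E.inter hQ (Subgroup.mem_subgroupOf.mp h1) (Subgroup.mem_subgroupOf.mp h2)
  have hθi : Function.Injective θ := by
    rw [injective_iff_map_eq_one]
    intro m hm
    have h1 : π m = 1 := by
      rw [← hθ, hm]
      rfl
    have h2 : (m : N) ∈ Q' := (QuotientGroup.eq_one_iff _).mp h1
    apply Subtype.ext
    exact hone _ h2 m.2
  have hmemM : ∀ g : N, π g ∈ M ↔ (g : G) ∈ Q ⊔ K := by
    intro g
    constructor
    · rintro ⟨k, hk, hkg⟩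
      have h1 : g⁻¹ * k ∈ Q' := by
        rw [← QuotientGroup.eq]
        exact hkg.symm
      have h2 : (g : G) = (k : G) * ((g⁻¹ * k : N) : G)⁻¹ := by
        rw [Subgroup.coe_mul, Subgroup.coe_inv]
        group
      rw [h2]
      exact Subgroup.mul_mem _ (Subgroup.mem_sup_right (Subgroup.mem_subgroupOf.mp hk))
        (Subgroup.inv_mem _ (Subgroup.mem_sup_left (Subgroup.mem_subgroupOf.mp h1)))
    · intro h
      obtain ⟨q, hq, k, hk, hqk⟩ := Subgroup.mem_sup_of_normal_right.mp h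
      have hkN : k ∈ N := by
        have : k = q⁻¹ * (g : G) := by
          rw [← hqk]
          group
        rw [this]
        exact Subgroup.mul_mem _ (Subgroup.inv_mem _ (hQN hq)) g.2
      refine ⟨⟨k, hkN⟩, hk, ?_⟩
      have : g = ⟨q, hQN hq⟩ * ⟨k, hkN⟩ := by
        apply Subtype.ext
        exact hqk.symm
      rw [this, map_mul]
      have h1 : π ⟨q, hQN hq⟩ = 1 := (QuotientGroup.eq_one_iff _).mpr hq
      rw [h1, one_mul]
  have hcomm : ∀ (m : K') (g : N), (π m * π g = π g * π m ↔ (m : N) * g = g * m) := by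
    intro m g
    constructor
    · intro h
      rw [← map_mul, ← map_mul] at h
      have h1 : ((m : N) * g)⁻¹ * (g * m) ∈ Q' := by
        rw [← QuotientGroup.eq]
        exact h
      have h2 : ((m : N) * g)⁻¹ * (g * m) ∈ K' := by
        have h3 : ((m : N) * g)⁻¹ * (g * m) = (g⁻¹ * (m : N)⁻¹ * g) * m := by group
        rw [h3]
        have hn : K'.Normal := inferInstance
        refine K'.mul_mem ?_ m.2
        have := hn.conj_mem _ (K'.inv_mem m.2) g⁻¹
        rwa [inv_inv] at this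
      have h3 := hone _ h1 h2
      exact (inv_mul_eq_one.mp h3)
    · intro h
      rw [← map_mul, ← map_mul, h]
  -- the quotient
  have hcyc : IsCyclic ((N ⧸ Q') ⧸ M) ∧ IsPGroup p ((N ⧸ Q') ⧸ M) := by
    let φ : N →* G ⧸ K := (QuotientGroup.mk' K).comp N.subtype
    have hφ : φ.ker = K' := by
      ext x
      rw [MonoidHom.mem_ker]
      change ((x : G) : G ⧸ K) = 1 ↔ _
      rw [QuotientGroup.eq_one_iff]
      rfl
    have hc1 : IsCyclic (N ⧸ φ.ker) :=
      isCyclic_of_injective (QuotientGroup.kerLift φ) (QuotientGroup.kerLift_injective φ)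
    have hp1 : IsPGroup p (N ⧸ φ.ker) :=
      hC.of_injective (QuotientGroup.kerLift φ) (QuotientGroup.kerLift_injective φ)
    let ψ : N →* (N ⧸ Q') ⧸ M := (QuotientGroup.mk' M).comp π
    have hψ : φ.ker ≤ ψ.ker := by
      rw [hφ]
      intro x hx
      rw [MonoidHom.mem_ker]
      exact (QuotientGroup.eq_one_iff _).mpr (Subgroup.mem_map_of_mem π hx)
    have hψs : Function.Surjective (QuotientGroup.lift φ.ker ψ hψ) := by
      intro y
      obtain ⟨x, rfl⟩ := QuotientGroup.mk'_surjective M y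
      obtain ⟨z, rfl⟩ := hπs x
      exact ⟨(z : N ⧸ φ.ker), rfl⟩
    exact ⟨isCyclic_of_surjective _ hψs, hp1.of_surjective _ hψs⟩
  have hcyc1 := hcyc.1
  have hMcard : ¬ p ∣ Nat.card M := by
    intro h
    apply hK
    rw [← Nat.card_congr (MulEquiv.ofBijective θ ⟨hθi, hθs⟩).toEquiv] at h
    refine h.trans ?_
    have hinj : Function.Injective (fun x : K' => (⟨((x : N) : G), x.2⟩ : K)) := by
      intro a b hab
      have h3 : (⟨((a : N) : G), a.2⟩ : K) = ⟨((b : N) : G), b.2⟩ := hab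
      have h4 : ((a : N) : G) = ((b : N) : G) := congrArg (fun x : K => (x : G)) h3
      exact Subtype.ext (Subtype.ext h4)
    exact Subgroup.card_dvd_of_injective
      (MonoidHom.mk' (fun x : K' => (⟨((x : N) : G), x.2⟩ : K)) (fun a b => rfl)) hinj
  have : Fintype (N ⧸ Q') := Fintype.ofFinite _
  have hdz := dz_formula (p := p) M hcyc.2 hMcard
  rw [← numDefectZero_eq] at hdz
  have hloc : loc p Q = numDefectZero p (N ⧸ Q') := rfl
  rw [hloc]
  have hNc : Nat.card N = Nat.card Q * Nat.card (N ⧸ Q') := by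
    rw [← hcQ, mul_comm]
    exact Subgroup.card_eq_card_quotient_mul_card_subgroup Q'
  have hB : Nat.card {q : G × G // (q.1 ∈ K ∧ q.1 * q.2 = q.2 * q.1 ∧ q.2 ∉ K) ∧
        Subgroup.zpowers ((q.2 ^ e) ^ p) = Q} = Nat.card Q *
      Nat.card {q : M × (N ⧸ Q') // (q.2 ∉ M ∧ q.2 ^ p ∈ M) ∧
        (q.1 : N ⧸ Q') * q.2 = q.2 * q.1} := by
    have h1 := card_preimage (θ.prodMap π) (by
      rintro ⟨a, b⟩
      obtain ⟨a', ha'⟩ := hθs a
      obtain ⟨b', hb'⟩ := hπs b
      exact ⟨(a', b'), Prod.ext ha' hb'⟩)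
      (fun q : M × (N ⧸ Q') => (q.2 ∉ M ∧ q.2 ^ p ∈ M) ∧ (q.1 : N ⧸ Q') * q.2 = q.2 * q.1)
    have h2 : Nat.card (θ.prodMap π).ker = Nat.card Q := by
      rw [← hcQ]
      refine Nat.card_congr
        { toFun := fun x => ⟨x.1.2, ?_⟩
          invFun := fun x => ⟨(1, x.1), ?_⟩
          left_inv := ?_
          right_inv := ?_ }
      · have h3 := x.2
        rw [MonoidHom.mem_ker] at h3
        exact (QuotientGroup.eq_one_iff _).mp (congrArg Prod.snd h3)
      · rw [MonoidHom.mem_ker]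
        refine Prod.ext ?_ ?_
        · change θ 1 = 1
          exact map_one θ
        · exact (QuotientGroup.eq_one_iff _).mpr x.2
      · rintro ⟨⟨a, b⟩, h3⟩
        rw [MonoidHom.mem_ker] at h3
        have h4 : θ a = 1 := congrArg Prod.fst h3
        have h5 : a = 1 := hθi (h4.trans (map_one θ).symm)
        subst h5
        rfl
      · intro x
        rfl
    rw [← h2, ← h1]
    have key : ∀ (m : K') (g : N),
        (((θ.prodMap π) (m, g)).2 ∉ M ∧ ((θ.prodMap π) (m, g)).2 ^ p ∈ M) ∧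
          ((((θ.prodMap π) (m, g)).1 : M) : N ⧸ Q') * ((θ.prodMap π) (m, g)).2 =
            ((θ.prodMap π) (m, g)).2 * (((θ.prodMap π) (m, g)).1 : M) ↔
        (((m : N) : G) ∈ K ∧ ((m : N) : G) * (g : G) = (g : G) * ((m : N) : G) ∧ (g : G) ∉ K) ∧
          Subgroup.zpowers (((g : G) ^ e) ^ p) = Q := by
      intro m g
      change (π g ∉ M ∧ (π g) ^ p ∈ M) ∧ π m * π g = π g * π m ↔ _
      rw [← map_pow, hmemM, hmemM, hcomm]
      have hmK : ((m : N) : G) ∈ K := m.2
      constructor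
      · rintro ⟨h3, h4⟩
        have h5 : ((m : N) : G) * (g : G) = (g : G) * ((m : N) : G) := congrArg Subtype.val h4
        have h6 := (E.pointwise hC hQ hmK h5).mp ⟨⟨(m : N).2, g.2⟩, h3⟩
        exact ⟨⟨hmK, h5, h6.1⟩, h6.2⟩
      · rintro ⟨⟨_, h5, h6⟩, h7⟩
        have h8 := (E.pointwise hC hQ hmK h5).mpr ⟨h6, h7⟩
        exact ⟨h8.2, Subtype.ext h5⟩
    refine Nat.card_congr
        { toFun := fun x => ⟨(⟨⟨x.1.1, ?_⟩, ?_⟩, ⟨x.1.2, ?_⟩), ?_⟩
          invFun := fun x => ⟨(((x.1.1 : N) : G), (x.1.2 : G)), (key x.1.1 x.1.2).mp x.2⟩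
          left_inv := fun x => rfl
          right_inv := fun x => rfl }
    · exact ((E.pointwise hC hQ x.2.1.1 x.2.1.2.1).mpr ⟨x.2.1.2.2, x.2.2⟩).1.1
    · exact x.2.1.1
    · exact ((E.pointwise hC hQ x.2.1.1 x.2.1.2.1).mpr ⟨x.2.1.2.2, x.2.2⟩).1.2
    · exact (key _ _).mpr x.2
  have hA : Nat.card {q : M × M // q.1 * q.2 = q.2 * q.1} = cpn K Q := by
    symm
    unfold cpn
    refine Nat.card_congr ((Equiv.prodCongr (MulEquiv.ofBijective θ ⟨hθi, hθs⟩).toEquiv
      (MulEquiv.ofBijective θ ⟨hθi, hθs⟩).toEquiv).subtypeEquiv fun q => ?_)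
    change _ ↔ θ q.1 * θ q.2 = θ q.2 * θ q.1
    rw [← map_mul, ← map_mul, hθi.eq_iff]
  rw [hB, ← hA, hNc]
  calc _ = Nat.card Q * ((p - 1) * (Nat.card (N ⧸ Q') * numDefectZero p (N ⧸ Q')) +
        Nat.card {q : M × (N ⧸ Q') // (q.2 ∉ M ∧ q.2 ^ p ∈ M) ∧
        (q.1 : N ⧸ Q') * q.2 = q.2 * q.1}) := by ring
    _ = _ := by
        rw [hdz]
        ring

/-- commuting pairs whose second component has a given `p`-part -/
lemma card_given_part (E : Expo p K e e') [IsCyclic (G ⧸ K)] {Q : Subgroup G} (hQ : IsPGroup p Q) :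
    Nat.card {q : G × G // (q.1 ∈ K ∧ q.1 * q.2 = q.2 * q.1) ∧
        Subgroup.zpowers (q.2 ^ e) = Q} =
      cpn K Q * Nat.card {u : G // Subgroup.zpowers u = Q} := by
  unfold cpn
  set N := Subgroup.normalizer (Q : Set G) with hN
  rw [← Nat.card_prod]
  have hcN : ∀ u m : G, Subgroup.zpowers u = Q → Commute m u → m ∈ N := by
    intro u m hu hmu
    apply mem_norm_of_comm E
    intro q hq
    rw [← hu] at hq
    obtain ⟨j, rfl⟩ := Subgroup.mem_zpowers_iff.mp hq
    exact hmu.zpow_right j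
  have hu : ∀ u : G, Subgroup.zpowers u = Q → u ∈ Q := by
    rintro u rfl
    exact Subgroup.mem_zpowers u
  have hpart : ∀ (n u : G), n ∈ N → n ∈ K → Subgroup.zpowers u = Q →
      (n * u) ^ e = u ∧ (n * u) ^ e' = n ∧ n * u = u * n := by
    intro n u hnN hnK huQ
    have h1 : Commute n u := E.comm hQ hnN (hu u huQ)
    have h2 : (n * u) ^ e = u := by
      rw [h1.mul_pow, E.one n hnK, one_mul, E.self Q hQ u (hu u huQ)]
    refine ⟨h2, ?_, h1⟩
    have h3 := E.split (n * u)
    rw [h2] at h3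
    have h4 : n * u = u * n := h1
    rw [h4] at h3
    rw [h4]
    exact mul_left_cancel h3
  refine Nat.card_congr
    { toFun := fun q => ⟨⟨(⟨⟨q.1.1, ?_⟩, ?_⟩, ⟨⟨q.1.2 ^ e', ?_⟩, ?_⟩), ?_⟩, ⟨q.1.2 ^ e, q.2.2⟩⟩
      invFun := fun q => ⟨((((q.1.1.1 : N)) : G), (((q.1.1.2 : N)) : G) * q.2.1), ?_⟩
      left_inv := ?_
      right_inv := ?_ }
  · have h1 : Commute q.1.1 q.1.2 := q.2.1.2
    exact hcN _ _ q.2.2 (h1.pow_right e)
  · exact q.2.1.1
  · exact hcN _ _ q.2.2 ((Commute.refl q.1.2).pow_pow e' e)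
  · exact E.mem _
  · have h1 : Commute q.1.1 q.1.2 := q.2.1.2
    have h2 : q.1.1 * q.1.2 ^ e' = q.1.2 ^ e' * q.1.1 := h1.pow_right e'
    exact Subtype.ext (Subtype.ext h2)
  · have h0 := hpart _ _ (q.1.1.2 : N).2 q.1.1.2.2 q.2.2
    have h1 : Commute (((q.1.1.1 : N)) : G) (((q.1.1.2 : N)) : G) :=
      congrArg (fun x : K.subgroupOf N => ((x : N) : G)) q.1.2
    have h2 : Commute (((q.1.1.1 : N)) : G) q.2.1 :=
      E.comm hQ (q.1.1.1 : N).2 (hu _ q.2.2)
    refine ⟨⟨q.1.1.1.2, ?_⟩, ?_⟩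
    · exact h1.mul_right h2
    · change Subgroup.zpowers (((((q.1.1.2 : N)) : G) * q.2.1) ^ e) = Q
      rw [h0.1]
      exact q.2.2
  · rintro ⟨⟨m, g⟩, h1, h2⟩
    apply Subtype.ext
    refine Prod.ext rfl ?_
    change g ^ e' * g ^ e = g
    rw [← pow_add, add_comm, pow_add]
    exact E.split g
  · rintro ⟨⟨⟨m, n⟩, h1⟩, ⟨u, h2⟩⟩
    have h0 := hpart _ _ (n : N).2 n.2 h2
    refine Prod.ext ?_ ?_
    · apply Subtype.ext
      refine Prod.ext rfl ?_
      exact Subtype.ext (Subtype.ext h0.2.1)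
    · exact Subtype.ext h0.1

/-- the number of generators of a `p`-subgroup -/
lemma card_gen (E : Expo p K e e') [IsCyclic (G ⧸ K)] {Q : Subgroup G} (hQ : IsPGroup p Q)
    (hne : Q ≠ ⊥) :
    p * Nat.card {u : G // Subgroup.zpowers u = Q} = (p - 1) * Nat.card Q := by
  have : Fintype Q := Fintype.ofFinite _
  have hcyc : IsCyclic Q := by
    refine isCyclic_of_injective ((QuotientGroup.mk' K).comp Q.subtype) ?_
    rw [injective_iff_map_eq_one]
    intro x hx
    have h1 : (x : G) ∈ K := (QuotientGroup.eq_one_iff _).mp hx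
    exact Subtype.ext (E.inter hQ x.2 h1)
  have h1 : Nat.card {u : G // Subgroup.zpowers u = Q} =
      Nat.card {x : Q // orderOf x = Fintype.card Q} := by
    have key : ∀ u : G, ∀ hu : u ∈ Q, Subgroup.zpowers u = Q ↔
        orderOf (⟨u, hu⟩ : Q) = Fintype.card Q := by
      intro u hu
      have ho : orderOf (⟨u, hu⟩ : Q) = orderOf u := Subgroup.orderOf_mk u hu
      rw [ho, ← Nat.card_eq_fintype_card]
      constructor
      · intro h
        rw [← Nat.card_zpowers, h]
      · intro h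
        apply Subgroup.eq_of_le_of_card_ge
        · rw [Subgroup.zpowers_le]
          exact hu
        · rw [Nat.card_zpowers, h]
    have hmem : ∀ u : G, Subgroup.zpowers u = Q → u ∈ Q := by
      rintro u rfl
      exact Subgroup.mem_zpowers u
    exact Nat.card_congr
      { toFun := fun u => ⟨⟨u.1, hmem u.1 u.2⟩, (key u.1 _).mp u.2⟩
        invFun := fun x => ⟨x.1.1, (key x.1.1 x.1.2).mpr x.2⟩
        left_inv := fun u => rfl
        right_inv := fun x => rfl }
  obtain ⟨r, hr⟩ := IsPGroup.iff_card.mp hQ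
  have hr0 : 0 < r := by
    rcases Nat.eq_zero_or_pos r with h | h
    · exfalso
      apply hne
      rw [h, pow_zero] at hr
      exact Subgroup.card_eq_one.mp hr
    · exact h
  have h2 := IsCyclic.card_orderOf_eq_totient (α := Q) (d := Fintype.card Q) dvd_rfl
  rw [h1, Nat.card_eq_fintype_card, Fintype.card_subtype, h2, ← Nat.card_eq_fintype_card, hr,
    Nat.totient_prime_pow hp.out hr0]
  obtain ⟨s, rfl⟩ := Nat.exists_eq_succ_of_ne_zero hr0.ne'
  simp only [Nat.succ_eq_add_one, Nat.add_sub_cancel]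
  rw [pow_succ]
  ring

/-- the contribution of `Q` -/
lemma contribution (E : Expo p K e e') [IsCyclic (G ⧸ K)] (hC : IsPGroup p (G ⧸ K))
    (hK : ¬ p ∣ Nat.card K) {Q : Subgroup G} (hQ : IsPGroup p Q) :
    (p - 1) * (Nat.card (Subgroup.normalizer (Q : Set G)) * loc p Q) +
      Nat.card {q : G × G // (q.1 ∈ K ∧ q.1 * q.2 = q.2 * q.1 ∧ q.2 ∉ K) ∧
        Subgroup.zpowers ((q.2 ^ e) ^ p) = Q} +
      (if Q = ⊥ then Nat.card {q : G × G // (q.1 ∈ K ∧ q.1 * q.2 = q.2 * q.1) ∧
        Subgroup.zpowers (q.2 ^ e) = ⊥} else 0) =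
    p * Nat.card {q : G × G // (q.1 ∈ K ∧ q.1 * q.2 = q.2 * q.1) ∧
        Subgroup.zpowers (q.2 ^ e) = Q} := by
  rw [local_formula E hC hK hQ, card_given_part E hQ]
  by_cases h : Q = ⊥
  · subst h
    rw [if_pos rfl, card_given_part E hQ]
    have h1 : Nat.card {u : G // Subgroup.zpowers u = ⊥} = 1 := by
      rw [Nat.card_eq_one_iff_unique]
      refine ⟨⟨?_⟩, ⟨⟨1, Subgroup.zpowers_one_eq_bot⟩⟩⟩
      rintro ⟨a, ha⟩ ⟨b, hb⟩
      rw [Subgroup.zpowers_eq_bot] at ha hb
      exact Subtype.ext (ha.trans hb.symm)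
    rw [h1, Subgroup.card_bot]
    obtain ⟨s, hs⟩ := Nat.exists_eq_succ_of_ne_zero hp.out.ne_zero
    rw [hs]
    simp only [Nat.succ_eq_add_one, Nat.add_sub_cancel]
    ring
  · rw [if_neg h, add_zero]
    have h1 := card_gen E hQ h
    calc (p - 1) * (Nat.card Q * cpn K Q) = ((p - 1) * Nat.card Q) * cpn K Q := by ring
      _ = p * (cpn K Q * Nat.card {u : G // Subgroup.zpowers u = Q}) := by
          rw [← h1]
          ring

end loccount

/-- **Base case**: groups with a normal `p`-complement and cyclic Sylow `p`-subgroups -/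
theorem base_case {G : Type} [Group G] [Finite G] (K : Subgroup G) [K.Normal]
    [IsCyclic (G ⧸ K)] (hC : IsPGroup p (G ⧸ K)) (hK : ¬ p ∣ Nat.card K) :
    numRegularClasses p G = numWeights p G := by
  obtain ⟨e, e', E⟩ := exists_Expo (p := p) K hK hC
  have hfin : Finite {Q : Subgroup G // IsPGroup p Q} := inferInstance
  have : Fintype {Q : Subgroup G // IsPGroup p Q} := Fintype.ofFinite _
  have hw := card_mul_numWeights p G
  have hl := card_mul_numRegularClasses p G
  rw [finsum_eq_sum_of_fintype] at hw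
  -- regular elements are the elements of `K`
  have hreg : ∀ x : G, ¬ p ∣ orderOf x ↔ x ∈ K := by
    intro x
    constructor
    · intro h
      rw [← QuotientGroup.eq_one_iff]
      obtain ⟨j, hj⟩ := hC (x : G ⧸ K)
      have h1 : orderOf (x : G ⧸ K) ∣ orderOf x := orderOf_map_dvd (QuotientGroup.mk' K) x
      have h2 : orderOf (x : G ⧸ K) ∣ p ^ j := orderOf_dvd_of_pow_eq_one hj
      have h3 : Nat.Coprime (p ^ j) (orderOf x) :=
        Nat.Coprime.pow_left _ ((Nat.Prime.coprime_iff_not_dvd hp.out).mpr h)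
      rw [← orderOf_eq_one_iff]
      exact Nat.eq_one_of_dvd_coprimes h3 h2 h1
    · intro h h1
      apply hK
      refine h1.trans ?_
      have h2 := orderOf_dvd_natCard (⟨x, h⟩ : K)
      rwa [Subgroup.orderOf_mk] at h2
  set T := Nat.card {q : G × G // q.1 ∈ K ∧ q.1 * q.2 = q.2 * q.1} with hT
  have hlT : Nat.card G * numRegularClasses p G = T := by
    rw [hl]
    refine Nat.card_congr (Equiv.subtypeEquivRight fun q => ?_)
    rw [hreg]
  set R := Nat.card {q : G × G // q.1 ∈ K ∧ q.1 * q.2 = q.2 * q.1 ∧ q.2 ∉ K} with hR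
  set A := Nat.card {q : G × G // (q.1 ∈ K ∧ q.1 * q.2 = q.2 * q.1) ∧
        Subgroup.zpowers (q.2 ^ e) = ⊥} with hA
  have hTRA : T = R + A := by
    have h1 : ∀ x : G, Subgroup.zpowers (x ^ e) = ⊥ ↔ x ∈ K := by
      intro x
      rw [Subgroup.zpowers_eq_bot]
      constructor
      · intro h
        have h2 := E.split x
        rw [h, one_mul] at h2
        rw [← h2]
        exact E.mem x
      · exact E.one x
    have hfG : Finite (G × G) := inferInstance
    have hR2 : R = Nat.card {q : {q : G × G // q.1 ∈ K ∧ q.1 * q.2 = q.2 * q.1} // q.1.2 ∉ K} := by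
      rw [hR]
      exact Nat.card_congr
        { toFun := fun q => ⟨⟨q.1, q.2.1, q.2.2.1⟩, q.2.2.2⟩
          invFun := fun q => ⟨q.1.1, q.1.2.1, q.1.2.2, q.2⟩
          left_inv := fun q => rfl
          right_inv := fun q => rfl }
    have hA2 : A = Nat.card {q : {q : G × G // q.1 ∈ K ∧ q.1 * q.2 = q.2 * q.1} // q.1.2 ∈ K} := by
      rw [hA]
      exact Nat.card_congr
        { toFun := fun q => ⟨⟨q.1, q.2.1⟩, (h1 _).mp q.2.2⟩
          invFun := fun q => ⟨q.1.1, q.1.2, (h1 _).mpr q.2⟩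
          left_inv := fun q => rfl
          right_inv := fun q => rfl }
    rw [hR2, hA2, hT, add_comm, ← Nat.card_sum]
    exact (Nat.card_congr (Equiv.sumCompl
      (fun q : {q : G × G // q.1 ∈ K ∧ q.1 * q.2 = q.2 * q.1} => q.1.2 ∈ K))).symm
  have hS1 : ∑ Q : {Q : Subgroup G // IsPGroup p Q},
      Nat.card {q : G × G // (q.1 ∈ K ∧ q.1 * q.2 = q.2 * q.1) ∧
        Subgroup.zpowers (q.2 ^ e) = Q.1} = T := by
    rw [hT, ← fiber_sum (fun q : G × G => q.1 ∈ K ∧ q.1 * q.2 = q.2 * q.1)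
      (fun q : G × G => (⟨Subgroup.zpowers (q.2 ^ e), E.pgrp q.2⟩ :
        {Q : Subgroup G // IsPGroup p Q}))]
    refine Finset.sum_congr rfl fun Q _ => ?_
    refine Nat.card_congr (Equiv.subtypeEquivRight fun q => ?_)
    rw [Subtype.ext_iff]
  have hpg : ∀ g : G, IsPGroup p (Subgroup.zpowers ((g ^ e) ^ p)) := by
    intro g
    refine IsPGroup.to_le (E.pgrp g) ?_
    rw [Subgroup.zpowers_le]
    exact Subgroup.pow_mem _ (Subgroup.mem_zpowers _) p
  have hS2 : ∑ Q : {Q : Subgroup G // IsPGroup p Q},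
      Nat.card {q : G × G // (q.1 ∈ K ∧ q.1 * q.2 = q.2 * q.1 ∧ q.2 ∉ K) ∧
        Subgroup.zpowers ((q.2 ^ e) ^ p) = Q.1} = R := by
    rw [hR, ← fiber_sum (fun q : G × G => q.1 ∈ K ∧ q.1 * q.2 = q.2 * q.1 ∧ q.2 ∉ K)
      (fun q : G × G => (⟨Subgroup.zpowers ((q.2 ^ e) ^ p), hpg q.2⟩ :
        {Q : Subgroup G // IsPGroup p Q}))]
    refine Finset.sum_congr rfl fun Q _ => ?_
    refine Nat.card_congr (Equiv.subtypeEquivRight fun q => ?_)
    rw [Subtype.ext_iff]
  have hS3 : ∑ Q : {Q : Subgroup G // IsPGroup p Q}, (if Q.1 = ⊥ then A else 0) = A := by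
    have h1 : ∀ Q : {Q : Subgroup G // IsPGroup p Q},
        (if Q.1 = ⊥ then A else 0) = if Q = ⟨⊥, IsPGroup.of_bot⟩ then A else 0 := by
      intro Q
      by_cases h : Q.1 = ⊥
      · rw [if_pos h, if_pos (Subtype.ext h)]
      · rw [if_neg h, if_neg (fun h2 => h (congrArg Subtype.val h2))]
    rw [Finset.sum_congr rfl fun Q _ => h1 Q, Finset.sum_ite_eq' Finset.univ, if_pos
      (Finset.mem_univ _)]
  have hmain := Finset.sum_congr (rfl : (Finset.univ : Finset {Q : Subgroup G // IsPGroup p Q}) =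
    Finset.univ) fun Q _ => contribution E hC hK Q.2
  rw [Finset.sum_add_distrib, Finset.sum_add_distrib, ← Finset.mul_sum, ← Finset.mul_sum, hS1, hS2,
    hS3, ← hw, add_assoc, ← hTRA] at hmain
  have h1 : (p - 1) * (Nat.card G * numWeights p G) = (p - 1) * T := by
    obtain ⟨s, hs⟩ := Nat.exists_eq_succ_of_ne_zero hp.out.ne_zero
    have h2 : p - 1 = s := by rw [hs]; rfl
    rw [h2] at hmain ⊢
    have h3 : p * T = s * T + T := by
      rw [hs, Nat.succ_mul]
    rw [h3] at hmain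
    exact Nat.add_right_cancel hmain
  have h2 : 0 < p - 1 := Nat.sub_pos_of_lt hp.out.one_lt
  have h3 := Nat.eq_of_mul_eq_mul_left h2 h1
  rw [← hlT] at h3
  exact (Nat.eq_of_mul_eq_mul_left Nat.card_pos h3).symm

end Pool.Agent.Y63.AWC
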