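import Mathlib

/-!
# Weights of finite groups and modules over `𝔽_p`
-/

open scoped Classical

noncomputable section

namespace Pool.Agent.Y63.AWC

/-- `χ` is the character of an irreducible finite-dimensional complex representation of `G`. -/
def IsIrreducibleCharacter {G : Type} [Group G] (χ : G → ℂ) : Prop :=
  ∃ (V : Type) (_ : AddCommGroup V) (_ : Module ℂ V) (_ : FiniteDimensional ℂ V)
    (ρ : Representation ℂ G V), ρ.IsIrreducible ∧ χ = ρ.character

/-- The number of irreducible complex characters of `G` of `p`-defect zero, that is, with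
`χ(1)_p = |G|_p`. -/
def numDefectZero (p : ℕ) (G : Type) [Group G] : ℕ :=
  Nat.card {χ : G → ℂ // IsIrreducibleCharacter χ ∧
    ∃ n : ℕ, χ 1 = (n : ℂ) ∧ n.factorization p = (Nat.card G).factorization p}

/-- `R = g Q g⁻¹` for some `g`. -/
def ConjugateSubgroups {G : Type} [Group G] (Q R : Subgroup G) : Prop :=
  ∃ g : G, R = Q.map (MulAut.conj g).toMonoidHom

theorem conjugateSubgroups_equivalence (p : ℕ) (G : Type) [Group G] :
    Equivalence (fun Q R : {Q : Subgroup G // IsPGroup p Q} => ConjugateSubgroups Q.1 R.1) :=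
  { refl := fun Q => ⟨1, by ext x; simp [Subgroup.mem_map]⟩
    symm := by
      rintro Q R ⟨g, hg⟩
      refine ⟨g⁻¹, ?_⟩
      rw [hg, Subgroup.map_map]
      ext x
      simp [Subgroup.mem_map, mul_assoc]
    trans := by
      rintro Q R S ⟨g, hg⟩ ⟨h, hh⟩
      refine ⟨h * g, ?_⟩
      rw [hh, hg, Subgroup.map_map]
      ext x
      simp [Subgroup.mem_map, mul_assoc] }

/-- Conjugacy of `p`-subgroups of `G`. -/
def pSubgroupSetoid (p : ℕ) (G : Type) [Group G] : Setoid {Q : Subgroup G // IsPGroup p Q} where
  r Q R := ConjugateSubgroups Q.1 R.1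
  iseqv := conjugateSubgroups_equivalence p G

/-- The number of `G`-conjugacy classes of `p`-weights `(Q, π)` of `G`: `Q` is a `p`-subgroup and
`π` is an irreducible character of `N_G(Q)/Q` of `p`-defect zero. The sum is over representatives
`Q` of the conjugacy classes of `p`-subgroups. -/
def numWeights (p : ℕ) (G : Type) [Group G] : ℕ :=
  ∑ᶠ c : Quotient (pSubgroupSetoid p G),
    numDefectZero p (Subgroup.normalizer (c.out.1 : Set G) ⧸
      c.out.1.subgroupOf (Subgroup.normalizer (c.out.1 : Set G)))

/-- The number of conjugacy classes of `p`-regular elements of `G`, which by a theorem of Brauer is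
the number of simple modules of `G` over an algebraically closed field of characteristic `p`. -/
def numRegularClasses (p : ℕ) (G : Type) [Group G] : ℕ :=
  Nat.card {c : ConjClasses G // ∃ x : G, ConjClasses.mk x = c ∧ ¬ p ∣ orderOf x}

section

variable {p : ℕ} {G V : Type} [Group G] [AddCommGroup V] [Module (ZMod p) V]

theorem stabilizer_mul (ρ : Representation (ZMod p) G V) (v : V) {a b : G} (ha : ρ a v = v)
    (hb : ρ b v = v) : ρ (a * b) v = v := by
  rw [map_mul, Module.End.mul_apply, hb, ha]

theorem stabilizer_inv (ρ : Representation (ZMod p) G V) (v : V) {a : G} (ha : ρ a v = v) :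
    ρ a⁻¹ v = v := by
  conv_lhs => rw [← ha]
  rw [← Module.End.mul_apply, ← map_mul, inv_mul_cancel, map_one, Module.End.one_apply]

theorem stabilizer_one (ρ : Representation (ZMod p) G V) (v : V) : ρ 1 v = v := by
  rw [map_one, Module.End.one_apply]

/-- The stabiliser of a vector. -/
def vectorStabilizer (ρ : Representation (ZMod p) G V) (v : V) : Subgroup G where
  carrier := {g | ρ g v = v}
  one_mem' := stabilizer_one ρ v
  mul_mem' := stabilizer_mul ρ v
  inv_mem' := stabilizer_inv ρ v

theorem orbit_equivalence (ρ : Representation (ZMod p) G V) :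
    Equivalence (fun v w : V => ∃ g : G, ρ g v = w) :=
  { refl := fun v => ⟨1, stabilizer_one ρ v⟩
    symm := by
      rintro v w ⟨g, rfl⟩
      exact ⟨g⁻¹, by
        rw [← Module.End.mul_apply, ← map_mul, inv_mul_cancel, map_one, Module.End.one_apply]⟩
    trans := by
      rintro u v w ⟨g, rfl⟩ ⟨h, rfl⟩
      exact ⟨h * g, by rw [map_mul, Module.End.mul_apply]⟩ }

/-- The orbit relation on a representation. -/
def orbitSetoid (ρ : Representation (ZMod p) G V) : Setoid V where
  r v w := ∃ g : G, ρ g v = w
  iseqv := orbit_equivalence ρ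

/-- The sum of the numbers of weights of the stabilisers `G_v`, over representatives `v` of the
`G`-orbits on the module `V`. -/
def weightSum (ρ : Representation (ZMod p) G V) : ℕ :=
  ∑ᶠ o : Quotient (orbitSetoid ρ), numWeights p (vectorStabilizer ρ o.out)

end

section

variable {p : ℕ} {G : Type} [Group G] [Finite G] {C : Subgroup G}

theorem aug_add {a b : G ⧸ C → ZMod p} (ha : ∑ᶠ x, a x = 0) (hb : ∑ᶠ x, b x = 0) :
    ∑ᶠ x, (a + b) x = 0 := by
  have : (fun x => (a + b) x) = fun x => a x + b x := rfl
  rw [this, finsum_add_distrib (Set.toFinite _) (Set.toFinite _), ha, hb, add_zero]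

theorem aug_zero : ∑ᶠ x : G ⧸ C, (0 : G ⧸ C → ZMod p) x = 0 := by
  simp

theorem aug_smul (c : ZMod p) {a : G ⧸ C → ZMod p} (ha : ∑ᶠ x, a x = 0) :
    ∑ᶠ x, (c • a) x = 0 := by
  have : (fun x => (c • a) x) = fun x => c • a x := rfl
  rw [this, ← smul_finsum' c (Set.toFinite _), ha, smul_zero]

/-- The functions `G/C → 𝔽_p` whose values sum to zero. -/
def augSubmodule (p : ℕ) {G : Type} [Group G] [Finite G] (C : Subgroup G) :
    Submodule (ZMod p) (G ⧸ C → ZMod p) where
  carrier := {f | ∑ᶠ x, f x = 0}
  zero_mem' := aug_zero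
  add_mem' := aug_add
  smul_mem' := fun c _ ha => aug_smul c ha

theorem aug_act (g : G) (f : augSubmodule p C) :
    (fun x : G ⧸ C => f.1 (g⁻¹ • x)) ∈ augSubmodule p C := by
  have h := f.2
  change ∑ᶠ x, f.1 x = 0 at h
  change ∑ᶠ x, f.1 (g⁻¹ • x) = 0
  rw [← h]
  exact finsum_comp_equiv (MulAction.toPerm g⁻¹)

/-- The type of functions `G/C → 𝔽_p` whose values sum to zero. -/
def AugModule (p : ℕ) {G : Type} [Group G] [Finite G] (C : Subgroup G) : Type :=
  augSubmodule p C

instance augAddCommGroup : AddCommGroup (AugModule p C) :=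
  inferInstanceAs (AddCommGroup (augSubmodule p C))

instance augModule : Module (ZMod p) (AugModule p C) :=
  inferInstanceAs (Module (ZMod p) (augSubmodule p C))

/-- The translation `(g f)(x) = f(g⁻¹ x)`. -/
def augShift (g : G) (f : AugModule p C) : AugModule p C :=
  ⟨fun x => f.1 (g⁻¹ • x), aug_act g f⟩

theorem augShift_add (g : G) (a b : AugModule p C) :
    augShift g (a + b) = augShift g a + augShift g b := rfl

theorem augShift_smul (g : G) (c : ZMod p) (a : AugModule p C) :
    augShift g (c • a) = c • augShift g a := rfl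

/-- The translation `(g f)(x) = f(g⁻¹ x)` as a linear map. -/
def augAct (p : ℕ) {G : Type} [Group G] [Finite G] (C : Subgroup G) (g : G) :
    Module.End (ZMod p) (AugModule p C) where
  toFun := augShift g
  map_add' := augShift_add g
  map_smul' := augShift_smul g

theorem augAct_one : augAct p C (1 : G) = 1 := by
  refine LinearMap.ext fun f => ?_
  apply Subtype.ext
  funext x
  change f.1 ((1 : G)⁻¹ • x) = f.1 x
  rw [inv_one, one_smul]

theorem augAct_mul (g h : G) : augAct p C (g * h) = augAct p C g * augAct p C h := by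
  refine LinearMap.ext fun f => ?_
  apply Subtype.ext
  funext x
  change f.1 ((g * h)⁻¹ • x) = f.1 (h⁻¹ • g⁻¹ • x)
  rw [mul_inv_rev, mul_smul]

end

/-- The action of `G` on the functions `G/C → 𝔽_p` whose values sum to zero, by
`(g f)(x) = f(g⁻¹ x)`. -/
def augRep (p : ℕ) {G : Type} [Group G] [Finite G] (C : Subgroup G) :
    Representation (ZMod p) G (AugModule p C) where
  toFun := augAct p C
  map_one' := augAct_one
  map_mul' := augAct_mul

/-- The number of weights of stabilisers is the same for a module and its dual. -/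
def DualInvariant {p : ℕ} {G V : Type} [Group G] [AddCommGroup V] [Module (ZMod p) V]
    (ρ : Representation (ZMod p) G V) : Prop :=
  weightSum ρ = weightSum ρ.dual

end Pool.Agent.Y63.AWC
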