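import Pool.Agent.Y63.AWC.Mod

/-!
# Augmentation modules of transitive permutation modules
-/

open scoped BigOperators Classical

set_option linter.unusedSectionVars false
set_option linter.style.haveILetI false

noncomputable section

namespace Pool.Agent.Y63.AWC

/-- the representation on the submodule -/
def augRep0 (p : ℕ) {G : Type} [Group G] [Finite G] (C : Subgroup G) :
    Representation (ZMod p) G (augSubmodule p C) where
  toFun g :=
    { toFun := fun f => ⟨fun x => f.1 (g⁻¹ • x), aug_act g f⟩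
      map_add' := fun a b => rfl
      map_smul' := fun c a => rfl }
  map_one' := by
    ext f
    change f.1 ((1 : G)⁻¹ • _) = f.1 _
    rw [inv_one, one_smul]
  map_mul' := by
    intro g h
    ext f
    change f.1 ((g * h)⁻¹ • _) = f.1 (h⁻¹ • g⁻¹ • _)
    rw [mul_inv_rev, mul_smul]

/-- The number of fixed points of a representation. -/
def fixCount {p : ℕ} {G V : Type} [Group G] [AddCommGroup V] [Module (ZMod p) V]
    (ρ : Representation (ZMod p) G V) : ℕ := Nat.card {v : V // ∀ g : G, ρ g v = v}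

variable {p : ℕ} [hp : Fact p.Prime] {G : Type} [Group G] [Finite G] (C : Subgroup G)

instance : Finite (augSubmodule p C) := by
  have : Finite (ZMod p) := Finite.of_fintype _
  infer_instance

lemma augRep0_apply (g : G) (f : augSubmodule p C) (x : G ⧸ C) :
    ((augRep0 p C g) f).1 x = f.1 (g⁻¹ • x) := rfl

lemma mem_aug [Fintype (G ⧸ C)] (f : G ⧸ C → ZMod p) : f ∈ augSubmodule p C ↔ ∑ x, f x = 0 := by
  rw [← finsum_eq_sum_of_fintype]
  rfl

theorem fixCount_aug0 (h : p ∣ C.index) : fixCount (augRep0 p C) = p := by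
  have : Fintype (G ⧸ C) := Fintype.ofFinite _
  have hcard : (Fintype.card (G ⧸ C) : ZMod p) = 0 := by
    rw [ZMod.natCast_eq_zero_iff, ← Nat.card_eq_fintype_card]
    exact h
  have hconst : ∀ c : ZMod p, (fun _ : G ⧸ C => c) ∈ augSubmodule p C := by
    intro c
    rw [mem_aug, Finset.sum_const, Finset.card_univ, nsmul_eq_mul, hcard, zero_mul]
  have e : {v : augSubmodule p C // ∀ g : G, augRep0 p C g v = v} ≃ ZMod p :=
    { toFun := fun v => v.1.1 ((1 : G) : G ⧸ C)
      invFun := fun c => ⟨⟨fun _ => c, hconst c⟩, fun g => rfl⟩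
      left_inv := by
        rintro ⟨v, hv⟩
        apply Subtype.ext
        apply Subtype.ext
        funext x
        obtain ⟨g, rfl⟩ := QuotientGroup.mk_surjective x
        have h1 := congrArg (fun w : augSubmodule p C => w.1 (g : G ⧸ C)) (hv g)
        simp only [augRep0_apply] at h1
        have h2 : g⁻¹ • (g : G ⧸ C) = ((1 : G) : G ⧸ C) := by
          rw [MulAction.Quotient.smul_coe, smul_eq_mul, inv_mul_cancel]
        rw [h2] at h1
        exact h1
      right_inv := fun c => rfl }
  unfold fixCount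
  rw [Nat.card_congr e, Nat.card_zmod]

/-- the difference of two point functions -/
def dlt (x : G ⧸ C) : augSubmodule p C :=
  ⟨fun y => (if y = x then 1 else 0) - (if y = ((1 : G) : G ⧸ C) then 1 else 0), by
    have : Fintype (G ⧸ C) := Fintype.ofFinite _
    rw [mem_aug, Finset.sum_sub_distrib, Finset.sum_ite_eq', Finset.sum_ite_eq',
      if_pos (Finset.mem_univ _), if_pos (Finset.mem_univ _), sub_self]⟩

lemma dlt_apply (x y : G ⧸ C) : (dlt (p := p) C x).1 y =
    (if y = x then 1 else 0) - (if y = ((1 : G) : G ⧸ C) then 1 else 0) := rfl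

lemma dlt_one : dlt (p := p) C ((1 : G) : G ⧸ C) = 0 := by
  apply Subtype.ext
  funext y
  rw [dlt_apply, sub_self]
  rfl

lemma dlt_mul (g h : G) : dlt (p := p) C ((g * h : G) : G ⧸ C) =
    augRep0 p C g (dlt C (h : G ⧸ C)) + dlt C (g : G ⧸ C) := by
  apply Subtype.ext
  funext y
  change (dlt (p := p) C ((g * h : G) : G ⧸ C)).1 y =
    (dlt (p := p) C (h : G ⧸ C)).1 (g⁻¹ • y) + (dlt (p := p) C (g : G ⧸ C)).1 y
  rw [dlt_apply, dlt_apply, dlt_apply]
  have h1 : ∀ k : G, g⁻¹ • y = (k : G ⧸ C) ↔ y = ((g * k : G) : G ⧸ C) := by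
    intro k
    rw [inv_smul_eq_iff, MulAction.Quotient.smul_coe, smul_eq_mul]
  simp only [h1, mul_one]
  ring

lemma sum_dlt [Fintype (G ⧸ C)] (f : augSubmodule p C) : f = ∑ x : G ⧸ C, f.1 x • dlt C x := by
  have hf := (mem_aug C f.1).mp f.2
  apply Subtype.ext
  funext y
  rw [Submodule.coe_sum, Finset.sum_apply]
  have h1 : ∀ x : G ⧸ C, ((f.1 x • dlt (p := p) C x : augSubmodule p C) : G ⧸ C → ZMod p) y =
      (if y = x then f.1 x else 0) - f.1 x * (if y = ((1 : G) : G ⧸ C) then 1 else 0) := by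
    intro x
    change f.1 x * (dlt (p := p) C x).1 y = _
    rw [dlt_apply, mul_sub, mul_ite, mul_one, mul_zero]
  rw [Finset.sum_congr rfl fun x _ => h1 x, Finset.sum_sub_distrib, ← Finset.sum_mul, hf, zero_mul,
    sub_zero, Finset.sum_ite_eq, if_pos (Finset.mem_univ _)]

/-- the value of a homomorphism on a coset -/
def cval (c : G →* Multiplicative (ZMod p)) (x : G ⧸ C) : ZMod p := Multiplicative.toAdd (c x.out)

lemma cval_mk {c : G →* Multiplicative (ZMod p)} (hc : ∀ x ∈ C, c x = 1) (g : G) :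
    cval C c (g : G ⧸ C) = Multiplicative.toAdd (c g) := by
  unfold cval
  congr 1
  have h1 : g⁻¹ * Quotient.out (g : G ⧸ C) ∈ C := by
    rw [← QuotientGroup.eq]
    exact (QuotientGroup.out_eq' _).symm
  have h2 := hc _ h1
  rw [map_mul, map_inv, inv_mul_eq_one] at h2
  exact h2.symm

lemma cval_smul {c : G →* Multiplicative (ZMod p)} (hc : ∀ x ∈ C, c x = 1) (g : G) (x : G ⧸ C) :
    cval C c (g • x) = Multiplicative.toAdd (c g) + cval C c x := by
  obtain ⟨h, rfl⟩ := QuotientGroup.mk_surjective x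
  rw [MulAction.Quotient.smul_coe, smul_eq_mul, cval_mk C hc, cval_mk C hc, map_mul, toAdd_mul]

lemma dual_inv_iff {V : Type} [AddCommGroup V] [Module (ZMod p) V]
    (ρ : Representation (ZMod p) G V) (φ : Module.Dual (ZMod p) V) :
    (∀ g, ρ.dual g φ = φ) ↔ ∀ g v, φ (ρ g v) = φ v := by
  constructor
  · intro h g v
    have h1 : φ (ρ (g⁻¹)⁻¹ v) = φ v := congrFun (congrArg DFunLike.coe (h g⁻¹)) v
    rwa [inv_inv] at h1
  · intro h g
    ext v
    exact h g⁻¹ v

/-- invariant functionals are homomorphisms `G → 𝔽_p` vanishing on `C` -/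
theorem fixCount_aug0_dual :
    fixCount (augRep0 p C).dual =
      Nat.card {c : G →* Multiplicative (ZMod p) // ∀ x ∈ C, c x = 1} := by
  have : Fintype (G ⧸ C) := Fintype.ofFinite _
  unfold fixCount
  refine Nat.card_congr
    { toFun := fun φ => ⟨MonoidHom.mk' (fun g => Multiplicative.ofAdd (φ.1 (dlt C (g : G ⧸ C)))) ?_,
        ?_⟩
      invFun := fun c => ⟨{ toFun := fun f => ∑ x, f.1 x * cval C c.1 x
                            map_add' := ?_
                            map_smul' := ?_ }, ?_⟩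
      left_inv := ?_
      right_inv := ?_ }
  · intro a b
    have h1 := (dual_inv_iff _ _).mp φ.2
    rw [← ofAdd_add, dlt_mul, map_add, h1, add_comm]
  · intro x hx
    have h1 : (x : G ⧸ C) = ((1 : G) : G ⧸ C) := by
      rw [QuotientGroup.eq, mul_one]
      exact C.inv_mem hx
    change Multiplicative.ofAdd (φ.1 (dlt C (x : G ⧸ C))) = 1
    rw [h1, dlt_one, map_zero, ofAdd_zero]
  · intro a b
    rw [← Finset.sum_add_distrib]
    refine Finset.sum_congr rfl fun x _ => ?_
    change (a.1 x + b.1 x) * _ = _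
    ring
  · intro r a
    rw [RingHom.id_apply, smul_eq_mul, Finset.mul_sum]
    refine Finset.sum_congr rfl fun x _ => ?_
    change (r * a.1 x) * _ = _
    ring
  · rw [dual_inv_iff]
    intro g f
    change ∑ x, f.1 (g⁻¹ • x) * cval C c.1 x = ∑ x, f.1 x * cval C c.1 x
    have hf := (mem_aug C f.1).mp f.2
    have h1 : ∑ x, f.1 (g⁻¹ • x) * cval C c.1 x = ∑ x, f.1 x * cval C c.1 (g • x) := by
      refine Fintype.sum_equiv (MulAction.toPerm g⁻¹) _ _ fun x => ?_
      change _ = f.1 (g⁻¹ • x) * cval C c.1 (g • g⁻¹ • x)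
      rw [smul_inv_smul]
    rw [h1]
    have h2 : ∀ x : G ⧸ C, f.1 x * cval C c.1 (g • x) =
        f.1 x * Multiplicative.toAdd (c.1 g) + f.1 x * cval C c.1 x := by
      intro x
      rw [cval_smul C c.2, mul_add]
    rw [Finset.sum_congr rfl fun x _ => h2 x, Finset.sum_add_distrib, ← Finset.sum_mul, hf,
      zero_mul, zero_add]
  · rintro ⟨φ, hφ⟩
    apply Subtype.ext
    refine LinearMap.ext fun f => ?_
    change ∑ x, f.1 x * φ (dlt C ((x.out : G) : G ⧸ C)) = φ f
    conv_rhs => rw [sum_dlt C f]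
    rw [map_sum]
    refine Finset.sum_congr rfl fun x _ => ?_
    rw [map_smul, smul_eq_mul]
    have : ((x.out : G) : G ⧸ C) = x := QuotientGroup.out_eq' x
    rw [this]
  · rintro ⟨c, hc⟩
    apply Subtype.ext
    refine MonoidHom.ext fun g => ?_
    change Multiplicative.ofAdd (∑ x, (dlt (p := p) C (g : G ⧸ C)).1 x * cval C c x) = c g
    have h1 : ∀ x : G ⧸ C, (dlt (p := p) C (g : G ⧸ C)).1 x * cval C c x =
        (if x = (g : G ⧸ C) then cval C c x else 0) -
          (if x = ((1 : G) : G ⧸ C) then cval C c x else 0) := by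
      intro x
      rw [dlt_apply, sub_mul, ite_mul, ite_mul, one_mul, zero_mul]
    rw [Finset.sum_congr rfl fun x _ => h1 x, Finset.sum_sub_distrib, Finset.sum_ite_eq',
      Finset.sum_ite_eq', if_pos (Finset.mem_univ _), if_pos (Finset.mem_univ _), cval_mk C hc,
      cval_mk C hc, map_one, toAdd_one, sub_zero, ofAdd_toAdd]

instance : Finite (AugModule p C) := inferInstanceAs (Finite (augSubmodule p C))

theorem fixCount_aug (h : p ∣ C.index) : fixCount (augRep p C) = p :=
  fixCount_aug0 C h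

theorem fixCount_aug_dual :
    fixCount (augRep p C).dual =
      Nat.card {c : G →* Multiplicative (ZMod p) // ∀ x ∈ C, c x = 1} :=
  fixCount_aug0_dual C

end Pool.Agent.Y63.AWC
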