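import Pool.Agent.Y63.AWC.Aug

/-!
# Alperin's weight conjecture and duality of modules
-/

open scoped BigOperators Classical

set_option linter.unusedSectionVars false
set_option linter.style.haveILetI false

noncomputable section

namespace Pool.Agent.Y63.AWC

variable {p : ℕ} [hp : Fact p.Prime] {G : Type} [Group G] [Finite G]

lemma weights_map (g : G) (H : Subgroup G) :
    numWeights p (H.map (MulAut.conj g).toMonoidHom) = numWeights p H :=
  (numWeights_congr (H.equivMapOfInjective (MulAut.conj g).toMonoidHom
    (MulAut.conj g).injective)).symm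

section
variable {V : Type} [AddCommGroup V] [Module (ZMod p) V] [Finite V]

lemma card_mul_weightSum (ρ : Representation (ZMod p) G V) :
    Nat.card G * weightSum ρ =
      ∑ᶠ v : V, Nat.card (vectorStabilizer ρ v) * numWeights p (vectorStabilizer ρ v) :=
  card_mul_orbitSum ρ (fun H => numWeights p H) weights_map

/-- the excess of a group all of whose proper subgroups have no excess -/
lemma excess (hH : ∀ H : Subgroup G, H ≠ ⊤ → numRegularClasses p H = numWeights p H)
    (ρ : Representation (ZMod p) G V) :
    ((Nat.card G * weightSum ρ : ℕ) : ℤ) - (regCount ρ : ℤ) =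
      fixCount ρ * (Nat.card G * ((numWeights p G : ℤ) - numRegularClasses p G)) := by
  have : Fintype V := Fintype.ofFinite V
  rw [card_mul_weightSum]
  unfold regCount
  rw [finsum_eq_sum_of_fintype, finsum_eq_sum_of_fintype, Nat.cast_sum, Nat.cast_sum,
    ← Finset.sum_sub_distrib]
  have h1 : ∀ v : V, ((Nat.card (vectorStabilizer ρ v) * numWeights p (vectorStabilizer ρ v) : ℕ) :
      ℤ) - ((Nat.card (vectorStabilizer ρ v) * numRegularClasses p (vectorStabilizer ρ v) : ℕ) :
      ℤ) = if ∀ g : G, ρ g v = v then
        ((Nat.card G : ℤ) * ((numWeights p G : ℤ) - numRegularClasses p G)) else 0 := by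
    intro v
    by_cases h : ∀ g : G, ρ g v = v
    · rw [if_pos h]
      have h2 : vectorStabilizer ρ v = ⊤ := by
        rw [Subgroup.eq_top_iff']
        exact h
      rw [h2, Subgroup.card_top, numWeights_congr (Subgroup.topEquiv (G := G)),
        numRegularClasses_congr (Subgroup.topEquiv (G := G))]
      push_cast
      ring
    · rw [if_neg h]
      have h2 : vectorStabilizer ρ v ≠ ⊤ := by
        intro h3
        rw [Subgroup.eq_top_iff'] at h3
        exact h h3
      rw [hH _ h2, sub_self]
  rw [Finset.sum_congr rfl fun v _ => h1 v, ← Finset.sum_filter, Finset.sum_const, nsmul_eq_mul]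
  congr 2
  unfold fixCount
  rw [Nat.card_eq_fintype_card, Fintype.card_subtype]

/-- one module whose fixed points and whose dual's fixed points differ in number suffices -/
theorem of_module (hH : ∀ H : Subgroup G, H ≠ ⊤ → numRegularClasses p H = numWeights p H)
    (ρ : Representation (ZMod p) G V) (hd : weightSum ρ = weightSum ρ.dual)
    (hne : fixCount ρ ≠ fixCount ρ.dual) : numRegularClasses p G = numWeights p G := by
  have hfd : Finite (Module.Dual (ZMod p) V) := finite_dual
  have h1 := excess hH ρ
  have h2 := excess hH ρ.dual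
  rw [regCount_dual, ← hd, h1] at h2
  have h3 : ((fixCount ρ : ℤ) - fixCount ρ.dual) *
      (Nat.card G * ((numWeights p G : ℤ) - numRegularClasses p G)) = 0 := by
    rw [sub_mul, h2, sub_self]
  rcases mul_eq_zero.mp h3 with h4 | h4
  · exact absurd (by exact_mod_cast sub_eq_zero.mp h4) hne
  · rcases mul_eq_zero.mp h4 with h5 | h5
    · have : Nat.card G = 0 := by exact_mod_cast h5
      exact absurd this Nat.card_pos.ne'
    · have := sub_eq_zero.mp h5
      exact_mod_cast this.symm

/-- the conjecture for all subgroups gives duality -/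
theorem duality_of_forall (hH : ∀ H : Subgroup G, numRegularClasses p H = numWeights p H)
    (ρ : Representation (ZMod p) G V) : weightSum ρ = weightSum ρ.dual := by
  have hfd : Finite (Module.Dual (ZMod p) V) := finite_dual
  have key : ∀ {W : Type} [AddCommGroup W] [Module (ZMod p) W] [Finite W]
      (ρ : Representation (ZMod p) G W), Nat.card G * weightSum ρ = regCount ρ := by
    intro W _ _ _ ρ
    rw [card_mul_weightSum]
    unfold regCount
    refine finsum_congr fun v => ?_
    rw [hH]
  have h1 := key ρ
  have h2 := key ρ.dual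
  rw [regCount_dual, ← h1] at h2
  exact (Nat.eq_of_mul_eq_mul_left Nat.card_pos h2).symm

end

/-- **Burnside**: a cyclic Sylow subgroup generated by an element detected by a homomorphism to
`𝔽_p` has a normal complement -/
theorem exists_complement (x : G) (hx : IsPGroup p (Subgroup.zpowers x))
    (hidx : ¬ p ∣ (Subgroup.zpowers x).index) (c : G →* Multiplicative (ZMod p)) (hc : c x ≠ 1) :
    ∃ K : Subgroup G, K.Normal ∧ ∃ (_ : K.Normal), IsCyclic (G ⧸ K) ∧ IsPGroup p (G ⧸ K) ∧
      ¬ p ∣ Nat.card K := by
  set P : Sylow p G := hx.toSylow hidx with hP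
  have hPc : (P : Subgroup G) = Subgroup.zpowers x := rfl
  have hxP : x ∈ (P : Subgroup G) := Subgroup.mem_zpowers x
  -- elements of the normaliser centralise
  have hcent : ∀ n ∈ Subgroup.normalizer ((P : Subgroup G) : Set G), n * x = x * n := by
    intro n hn
    obtain ⟨r, hr⟩ := IsPGroup.iff_card.mp hx
    rw [Nat.card_zpowers] at hr
    -- the exponent
    obtain ⟨k, hk⟩ := Subgroup.mem_zpowers_iff.mp ((Subgroup.mem_normalizer_iff.mp hn x).mp hxP)
    -- conjugation by powers
    have hpow : ∀ i : ℕ, n ^ i * x * (n ^ i)⁻¹ = x ^ (k ^ i) := by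
      intro i
      induction i with
      | zero => simp
      | succ i ih =>
        have h1 : n ^ (i + 1) * x * (n ^ (i + 1))⁻¹ = n * (n ^ i * x * (n ^ i)⁻¹) * n⁻¹ := by
          rw [pow_succ']
          group
        rw [h1, ih]
        have h2 : n * x ^ (k ^ i) * n⁻¹ = (n * x * n⁻¹) ^ (k ^ i) := (conj_zpow).symm
        rw [h2, ← hk, ← zpow_mul, pow_succ']
    -- `k = 1` modulo `p`
    have hkp : (p : ℤ) ∣ k - 1 := by
      have h1 : c (n * x * n⁻¹) = c x := by
        rw [map_mul, map_mul, map_inv]
        exact mul_inv_cancel_comm (c n) (c x)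
      rw [← hk, map_zpow] at h1
      have h2 : (c x) ^ (k - 1) = 1 := by
        rw [zpow_sub, zpow_one, h1, mul_inv_cancel]
      have h3 : orderOf (c x) = p := by
        apply orderOf_eq_prime _ hc
        apply Multiplicative.toAdd.injective
        rw [toAdd_pow, toAdd_one, nsmul_eq_mul, CharP.cast_eq_zero, zero_mul]
      rw [← h3]
      exact orderOf_dvd_iff_zpow_eq_one.mpr h2
    -- a power of `n` prime to `p` lies in `P`-centraliser : use `m` with `n ^ m ∈ P`
    set m := Nat.card (Subgroup.normalizer ((P : Subgroup G) : Set G) ⧸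
      (P : Subgroup G).subgroupOf (Subgroup.normalizer ((P : Subgroup G) : Set G))) with hm
    have hnm : n ^ m ∈ (P : Subgroup G) := by
      have h1 : ((⟨n, hn⟩ : Subgroup.normalizer ((P : Subgroup G) : Set G)) :
        Subgroup.normalizer ((P : Subgroup G) : Set G) ⧸ (P : Subgroup G).subgroupOf
          (Subgroup.normalizer ((P : Subgroup G) : Set G))) ^ m = 1 := pow_card_eq_one'
      rw [← QuotientGroup.mk_pow, QuotientGroup.eq_one_iff] at h1
      exact h1
    have hpm : ¬ p ∣ m := by
      intro h
      apply hidx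
      have h1 : m = (P : Subgroup G).relIndex (Subgroup.normalizer ((P : Subgroup G) : Set G)) :=
        rfl
      rw [h1] at h
      exact h.trans (Subgroup.relIndex_dvd_index_of_le Subgroup.le_normalizer)
    have hcm : x ^ (k ^ m) = x := by
      rw [← hpow m]
      obtain ⟨j, hj⟩ := Subgroup.mem_zpowers_iff.mp hnm
      rw [← hj]
      have h1 : x ^ j * x = x * x ^ j := (Commute.refl x).zpow_left j
      rw [h1, mul_inv_cancel_right]
    -- so `p ^ r ∣ k ^ m - 1`, hence `p ^ r ∣ k - 1`
    have hd1 : ((p ^ r : ℕ) : ℤ) ∣ k ^ m - 1 := by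
      rw [← hr]
      apply orderOf_dvd_iff_zpow_eq_one.mpr
      rw [zpow_sub, zpow_one, hcm, mul_inv_cancel]
    have hd2 : k ^ m - 1 = (∑ i ∈ Finset.range m, k ^ i) * (k - 1) := (geom_sum_mul k m).symm
    have hcop : IsCoprime (((p ^ r : ℕ) : ℤ)) (∑ i ∈ Finset.range m, k ^ i) := by
      push_cast
      apply IsCoprime.pow_left
      rw [(Nat.prime_iff_prime_int.mp hp.out).irreducible.coprime_iff_not_dvd]
      intro h
      have h1 : (p : ℤ) ∣ (∑ i ∈ Finset.range m, k ^ i) - ∑ i ∈ Finset.range m, (1 : ℤ) := by
        rw [← Finset.sum_sub_distrib]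
        apply Finset.dvd_sum
        intro i _
        refine hkp.trans ?_
        have := sub_dvd_pow_sub_pow k 1 i
        rwa [one_pow] at this
      rw [Finset.sum_const, Finset.card_range, nsmul_eq_mul, mul_one] at h1
      have h2 : (p : ℤ) ∣ (m : ℤ) := by
        have := dvd_sub h h1
        simpa using this
      exact hpm (Int.natCast_dvd_natCast.mp h2)
    have hd3 : ((p ^ r : ℕ) : ℤ) ∣ k - 1 := by
      rw [hd2] at hd1
      exact hcop.dvd_of_dvd_mul_left hd1
    have h1 : x ^ (k - 1) = 1 := by
      rw [← hr] at hd3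
      exact orderOf_dvd_iff_zpow_eq_one.mp hd3
    have h2 : x ^ k = x := by
      rw [zpow_sub, zpow_one, mul_inv_eq_one] at h1
      exact h1
    rw [h2] at hk
    exact (mul_inv_eq_iff_eq_mul.mp hk.symm)
  have hNC : Subgroup.normalizer ((P : Subgroup G) : Set G) ≤
      Subgroup.centralizer ((P : Subgroup G) : Set G) := by
    intro n hn
    rw [Subgroup.mem_centralizer_iff]
    intro y hy
    have hy' : y ∈ Subgroup.zpowers x := hy
    obtain ⟨j, rfl⟩ := Subgroup.mem_zpowers_iff.mp hy'
    have h1 : Commute x n := (hcent n hn).symm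
    exact h1.zpow_left j
  have hcomp := MonoidHom.ker_transferSylow_isComplement' P hNC
  have hcomp2 := hcomp.symm
  have e := Subgroup.IsComplement'.QuotientMulEquiv hcomp2
  refine ⟨(MonoidHom.transferSylow P hNC).ker, inferInstance, inferInstance, ?_, ?_, ?_⟩
  · have : IsCyclic (P : Subgroup G) := by
      rw [hPc]
      infer_instance
    exact isCyclic_of_injective e.toMonoidHom e.injective
  · exact P.isPGroup'.of_equiv e.symm
  · rw [← hcomp.index_eq_card]
    exact hidx

/-- every group is either covered by the base case or has a suitable augmentation module -/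
theorem exists_module :
    (∃ K : Subgroup G, K.Normal ∧ ∃ (_ : K.Normal), IsCyclic (G ⧸ K) ∧ IsPGroup p (G ⧸ K) ∧
      ¬ p ∣ Nat.card K) ∨
    ∃ x : G, IsPGroup p (Subgroup.zpowers x) ∧ p ∣ (Subgroup.zpowers x).index ∧
      fixCount (augRep p (Subgroup.zpowers x)) ≠ fixCount (augRep p (Subgroup.zpowers x)).dual := by
  by_cases hpG : p ∣ Nat.card G
  swap
  · left
    have hs : Subsingleton (G ⧸ (⊤ : Subgroup G)) := QuotientGroup.subsingleton_quotient_top
    refine ⟨⊤, inferInstance, inferInstance, isCyclic_of_subsingleton, ?_, ?_⟩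
    · intro g
      exact ⟨0, Subsingleton.elim _ _⟩
    · rwa [Subgroup.card_top]
  by_cases hh : Nat.card (G →* Multiplicative (ZMod p)) = p
  · -- a non-trivial homomorphism
    have hfin : Finite (G →* Multiplicative (ZMod p)) := by
      apply Nat.finite_of_card_ne_zero
      rw [hh]
      exact hp.out.ne_zero
    have hnt : Nontrivial (G →* Multiplicative (ZMod p)) := by
      rw [← Finite.one_lt_card_iff_nontrivial, hh]
      exact hp.out.one_lt
    obtain ⟨c, hc⟩ := exists_ne (1 : G →* Multiplicative (ZMod p))
    obtain ⟨g, hg⟩ : ∃ g, c g ≠ 1 := by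
      by_contra hcon
      push Not at hcon
      exact hc (MonoidHom.ext hcon)
    -- the `p`-part
    obtain ⟨e, he1, he2⟩ : ∃ e : ℕ, (c g) ^ e = c g ∧ IsPGroup p (Subgroup.zpowers (g ^ e)) := by
      obtain ⟨a, m, hm, ham⟩ := Nat.exists_eq_pow_mul_and_not_dvd (Nat.card_pos (α := G)).ne' p
        hp.out.ne_one
      have hcop : Nat.Coprime (p ^ a) m :=
        Nat.Coprime.pow_left _ ((Nat.Prime.coprime_iff_not_dvd hp.out).mpr hm)
      have hcop2 : Nat.Coprime p m := (Nat.Prime.coprime_iff_not_dvd hp.out).mpr hm
      obtain ⟨e, he1, he2⟩ := Nat.chineseRemainder hcop2 1 0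
      have hme : m ∣ e := (Nat.modEq_zero_iff_dvd).mp he2
      refine ⟨e, ?_, ?_⟩
      · have h1 : (c g) ^ p = 1 := by
          apply Multiplicative.toAdd.injective
          rw [toAdd_pow, toAdd_one, nsmul_eq_mul, CharP.cast_eq_zero, zero_mul]
        conv_rhs => rw [← pow_one (c g)]
        rw [pow_eq_pow_iff_modEq]
        exact he1.of_dvd (orderOf_dvd_of_pow_eq_one h1)
      · rintro ⟨y, hy⟩
        obtain ⟨j, rfl⟩ := Subgroup.mem_zpowers_iff.mp hy
        refine ⟨a, Subtype.ext ?_⟩
        change ((g ^ e) ^ j) ^ (p ^ a) = 1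
        obtain ⟨f, hf⟩ := hme
        have h1 : (g ^ e) ^ (p ^ a) = 1 := by
          rw [← pow_mul, hf]
          have : m * f * p ^ a = Nat.card G * f := by
            rw [ham]
            ring
          rw [this, pow_mul, pow_card_eq_one', one_pow]
        rw [← zpow_natCast, ← zpow_mul, mul_comm, zpow_mul, zpow_natCast, h1, one_zpow]
    set x := g ^ e with hx
    have hcx : c x ≠ 1 := by
      rw [hx, map_pow, he1]
      exact hg
    by_cases hidx : p ∣ (Subgroup.zpowers x).index
    · right
      refine ⟨x, he2, hidx, ?_⟩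
      rw [fixCount_aug _ hidx, fixCount_aug_dual]
      have h1 : Nat.card {d : G →* Multiplicative (ZMod p) // ∀ y ∈ Subgroup.zpowers x, d y = 1}
          = 1 := by
        rw [Nat.card_eq_one_iff_unique]
        refine ⟨⟨?_⟩, ⟨⟨1, fun y _ => rfl⟩⟩⟩
        have key : ∀ d : G →* Multiplicative (ZMod p), (∀ y ∈ Subgroup.zpowers x, d y = 1) →
            d = 1 := by
          intro d hd
          have h2 := mem_zpowers_of_prime_card hh (g := c) (g' := d) hc
          obtain ⟨j, rfl⟩ := Subgroup.mem_zpowers_iff.mp h2
          have h3 := hd x (Subgroup.mem_zpowers x)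
          have h4 : (c x) ^ j = 1 := h3
          have h5 : orderOf (c x) = p := by
            apply orderOf_eq_prime _ hcx
            apply Multiplicative.toAdd.injective
            rw [toAdd_pow, toAdd_one, nsmul_eq_mul, CharP.cast_eq_zero, zero_mul]
          have h6 : (p : ℤ) ∣ j := by
            rw [← h5]
            exact orderOf_dvd_iff_zpow_eq_one.mpr h4
          obtain ⟨i, rfl⟩ := h6
          have h7 : c ^ p = 1 := by
            have h8 : c ^ Nat.card (G →* Multiplicative (ZMod p)) = 1 := pow_card_eq_one'
            rwa [hh] at h8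
          rw [zpow_mul, zpow_natCast, h7, one_zpow]
        rintro ⟨a, ha⟩ ⟨b, hb⟩
        exact Subtype.ext ((key a ha).trans (key b hb).symm)
      rw [h1]
      exact hp.out.ne_one
    · left
      exact exists_complement x he2 hidx c hcx
  · right
    refine ⟨1, ?_, ?_, ?_⟩
    · rw [Subgroup.zpowers_one_eq_bot]
      exact IsPGroup.of_bot
    · rw [Subgroup.zpowers_one_eq_bot, Subgroup.index_bot]
      exact hpG
    · have hidx : p ∣ (Subgroup.zpowers (1 : G)).index := by
        rw [Subgroup.zpowers_one_eq_bot, Subgroup.index_bot]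
        exact hpG
      rw [fixCount_aug _ hidx, fixCount_aug_dual]
      have h1 : Nat.card {d : G →* Multiplicative (ZMod p) //
          ∀ y ∈ Subgroup.zpowers (1 : G), d y = 1} = Nat.card (G →* Multiplicative (ZMod p)) := by
        refine Nat.card_congr (Equiv.subtypeUnivEquiv ?_)
        intro d y hy
        rw [Subgroup.zpowers_one_eq_bot, Subgroup.mem_bot] at hy
        rw [hy, map_one]
      rw [h1]
      exact fun h => hh h.symm

/-- **Local form** -/
theorem local_tfae (hH : ∀ H : Subgroup G, H ≠ ⊤ → numRegularClasses p H = numWeights p H) :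
    List.TFAE [numRegularClasses p G = numWeights p G,
      ∀ (V : Type) [AddCommGroup V] [Module (ZMod p) V] [Finite V]
        (ρ : Representation (ZMod p) G V), weightSum ρ = weightSum ρ.dual,
      ∀ x : G, IsPGroup p (Subgroup.zpowers x) → p ∣ (Subgroup.zpowers x).index →
        weightSum (augRep p (Subgroup.zpowers x)) =
          weightSum (augRep p (Subgroup.zpowers x)).dual] := by
  tfae_have 1 → 2 := by
    intro h V _ _ _ ρ
    apply duality_of_forall
    intro H
    by_cases hT : H = ⊤
    · rw [hT, numWeights_congr (Subgroup.topEquiv (G := G)),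
        numRegularClasses_congr (Subgroup.topEquiv (G := G)), h]
    · exact hH H hT
  tfae_have 2 → 3 := by
    intro h x _ _
    exact h _ _
  tfae_have 3 → 1 := by
    intro h
    rcases exists_module (p := p) (G := G) with ⟨K, _, hK, h1, h2, h3⟩ | ⟨x, h1, h2, h3⟩
    · exact base_case K h2 h3
    · exact of_module hH (augRep p (Subgroup.zpowers x)) (h x h1 h2) h3
  tfae_finish

/-- induction on the order -/
theorem global_of_local (P : ∀ (G : Type) [Group G] [Finite G], Prop)
    (hP : ∀ (G : Type) [Group G] [Finite G],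
      (∀ H : Subgroup G, H ≠ ⊤ → numRegularClasses p H = numWeights p H) → P G →
        numRegularClasses p G = numWeights p G)
    (h : ∀ (G : Type) [Group G] [Finite G], P G) :
    ∀ (G : Type) [Group G] [Finite G], numRegularClasses p G = numWeights p G := by
  have key : ∀ n : ℕ, ∀ (G : Type) [Group G] [Finite G], Nat.card G = n →
      numRegularClasses p G = numWeights p G := by
    intro n
    induction n using Nat.strong_induction_on with
    | _ n ih =>
      intro G _ _ hG
      refine hP G (fun H hHT => ih (Nat.card H) ?_ H rfl) (h G)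
      rw [← hG]
      refine lt_of_le_of_ne (Subgroup.card_le_card_group H) ?_
      intro h1
      exact hHT (Subgroup.eq_top_of_card_eq H h1)
  intro G _ _
  exact key _ G rfl

end Pool.Agent.Y63.AWC
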