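import Pool.Agent.Y63.AWC.Base

/-!
# Duality of `𝔽_p G`-modules and counting of `p`-regular classes of stabilisers
-/

open scoped BigOperators Classical

set_option linter.unusedSectionVars false
set_option linter.style.haveILetI false

noncomputable section

namespace Pool.Agent.Y63.AWC

section lin

variable {F V : Type} [Field F] [Finite F] [AddCommGroup V] [Module F V] [Finite V]

/-- common fixed points of two commuting operators, one of them of order prime to `p` -/
theorem card_fix_dual (X C : Module.End F V) (n : ℕ) (hn : (n : F) ≠ 0) (hX : X ^ n = 1)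
    (hXC : X * C = C * X) :
    Nat.card {v : V // X v = v ∧ C v = v} =
      Nat.card {f : Module.Dual F V // f ∘ₗ X = f ∧ f ∘ₗ C = f} := by
  set S : Module.End F V := ∑ i ∈ Finset.range n, X ^ i with hS
  set e : Module.End F V := (n : F)⁻¹ • S with he
  have hXS : X * S = S := by
    have h := mul_geom_sum X n
    rw [hX, sub_self, sub_mul, one_mul] at h
    exact sub_eq_zero.mp h
  have hSX : S * X = S := by
    have h := geom_sum_mul X n
    rw [hX, sub_self, mul_sub, mul_one] at h
    exact sub_eq_zero.mp h
  have hXe : X * e = e := by rw [he, mul_smul_comm, hXS]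
  have heX : e * X = e := by rw [he, smul_mul_assoc, hSX]
  have hCe : C * e = e * C := by
    have h1 : Commute C S := by
      rw [hS]
      apply Commute.sum_right
      intro i _
      have h2 : Commute C X := hXC.symm
      exact h2.pow_right i
    rw [he, mul_smul_comm, smul_mul_assoc, h1.eq]
  set T : Module.End F V := (C - 1) * e + (1 - e) with hT
  have hTv : ∀ v : V, T v = C (e v) - e v + (v - e v) := fun v => rfl
  have hXev : ∀ v : V, X (e v) = e v := fun v => congrFun (congrArg DFunLike.coe hXe) v
  have heXv : ∀ v : V, e (X v) = e v := fun v => congrFun (congrArg DFunLike.coe heX) v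
  have hCev : ∀ v : V, C (e v) = e (C v) := fun v => congrFun (congrArg DFunLike.coe hCe) v
  have hSv : ∀ v : V, X v = v → e v = v := by
    intro v hv
    have h1 : ∀ i : ℕ, (X ^ i) v = v := by
      intro i
      induction i with
      | zero => rfl
      | succ i ih => rw [pow_succ, Module.End.mul_apply, hv, ih]
    have h2 : S v = (n : F) • v := by
      rw [hS, LinearMap.sum_apply, Finset.sum_congr rfl fun i _ => h1 i, Finset.sum_const,
        Finset.card_range, Nat.cast_smul_eq_nsmul]
    rw [he, LinearMap.smul_apply, h2, smul_smul, inv_mul_cancel₀ hn, one_smul]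
  have hSf : ∀ f : Module.Dual F V, (∀ v, f (X v) = f v) → ∀ v, f (e v) = f v := by
    intro f hf v
    have h1 : ∀ (i : ℕ) (v : V), f ((X ^ i) v) = f v := by
      intro i
      induction i with
      | zero => intro v; rfl
      | succ i ih =>
        intro v
        rw [pow_succ, Module.End.mul_apply, ih, hf]
    have h2 : f (S v) = (n : F) • f v := by
      rw [hS, LinearMap.sum_apply, map_sum, Finset.sum_congr rfl fun i _ => h1 i v,
        Finset.sum_const, Finset.card_range, Nat.cast_smul_eq_nsmul]
    rw [he, LinearMap.smul_apply, map_smul, h2, smul_smul, inv_mul_cancel₀ hn, one_smul]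
  have hfinV : Module.Finite F V := Module.Finite.of_finite
  have h1 : Nat.card {v : V // X v = v ∧ C v = v} = Nat.card (LinearMap.ker T) := by
    refine Nat.card_congr (Equiv.subtypeEquivRight fun v => ?_)
    rw [LinearMap.mem_ker, hTv]
    constructor
    · rintro ⟨h1, h2⟩
      rw [hSv v h1, h2, sub_self, add_zero]
    · intro h
      have h3 : v = e (v + v - C v) := by
        rw [map_sub, map_add, ← hCev]
        have : C (e v) - e v + (v - e v) = v - (e v + e v - C (e v)) := by abel
        rw [this, sub_eq_zero] at h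
        exact h
      have h4 : X v = v := by
        rw [h3]
        exact hXev _
      have h5 := hSv v h4
      rw [h5, sub_self, add_zero, sub_eq_zero] at h
      exact ⟨h4, h⟩
  have h2 : Nat.card {f : Module.Dual F V // f ∘ₗ X = f ∧ f ∘ₗ C = f} =
      Nat.card (LinearMap.ker T.dualMap) := by
    refine Nat.card_congr (Equiv.subtypeEquivRight fun f => ?_)
    rw [LinearMap.mem_ker]
    have hdm : ∀ v, T.dualMap f v = f (C (e v)) - f (e v) + (f v - f (e v)) := by
      intro v
      rw [LinearMap.dualMap_apply, hTv, map_add, map_sub, map_sub]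
    constructor
    · rintro ⟨h1, h2⟩
      ext v
      have h1v : ∀ v, f (X v) = f v := fun v => congrFun (congrArg DFunLike.coe h1) v
      have h2v : ∀ v, f (C v) = f v := fun v => congrFun (congrArg DFunLike.coe h2) v
      rw [hdm, h2v, hSf f h1v, sub_self, add_zero]
      rfl
    · intro h
      have hz : ∀ v, f (C (e v)) - f (e v) + (f v - f (e v)) = 0 := by
        intro v
        rw [← hdm, h]
        rfl
      have hX2 : ∀ v, f (X v) = f v := by
        intro v
        have h3 := hz (X v)
        have h4 := hz v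
        rw [heXv] at h3
        have h5 : f (C (e v)) - f (e v) + (f (X v) - f (e v)) =
          f (C (e v)) - f (e v) + (f v - f (e v)) := h3.trans h4.symm
        simpa using h5
      have he2 := hSf f hX2
      have hC2 : ∀ v, f (C v) = f v := by
        intro v
        have h3 := hz v
        rw [hCev, he2, he2, sub_self, add_zero, sub_eq_zero] at h3
        exact h3
      exact ⟨LinearMap.ext hX2, LinearMap.ext hC2⟩
  rw [h1, h2, Module.natCard_eq_pow_finrank (K := F), Module.natCard_eq_pow_finrank (K := F)
    (V := LinearMap.ker T.dualMap)]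
  congr 1
  have h3 := LinearMap.finrank_range_add_finrank_ker T
  have h4 := LinearMap.finrank_range_add_finrank_ker T.dualMap
  rw [LinearMap.finrank_range_dualMap_eq_finrank_range, Subspace.dual_finrank_eq] at h4
  omega

end lin

section rep

variable {p : ℕ} [hp : Fact p.Prime] {G V : Type} [Group G] [Finite G] [AddCommGroup V]
  [Module (ZMod p) V]

lemma finite_dual [Finite V] : Finite (Module.Dual (ZMod p) V) := by
  have : Finite (ZMod p) := Finite.of_fintype _
  exact Finite.of_injective (fun f : Module.Dual (ZMod p) V => (f : V → ZMod p))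
    DFunLike.coe_injective

lemma mem_vs (ρ : Representation (ZMod p) G V) (v : V) (g : G) :
    g ∈ vectorStabilizer ρ v ↔ ρ g v = v := Iff.rfl

/-- weighted count for `weightSum` -/
theorem card_mul_orbitSum [Finite V] (ρ : Representation (ZMod p) G V)
    (δ : Subgroup G → ℕ) (hδ : ∀ (g : G) (H : Subgroup G), δ (H.map (MulAut.conj g).toMonoidHom) = δ H) :
    Nat.card G * ∑ᶠ o : Quotient (orbitSetoid ρ), δ (vectorStabilizer ρ o.out) =
      ∑ᶠ v : V, Nat.card (vectorStabilizer ρ v) * δ (vectorStabilizer ρ v) := by
  have : Fintype V := Fintype.ofFinite V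
  letI : MulAction G V :=
    { smul := fun g v => ρ g v
      one_smul := fun v => by
        change ρ 1 v = v
        rw [map_one, Module.End.one_apply]
      mul_smul := fun g h v => by
        change ρ (g * h) v = ρ g (ρ h v)
        rw [map_mul, Module.End.mul_apply] }
  have h := orbit_sum (G := G) (orbitSetoid ρ) (fun a b => Iff.rfl)
    (fun v => δ (vectorStabilizer ρ v)) (by
      rintro v w ⟨g, rfl⟩
      rw [← hδ g (vectorStabilizer ρ v)]
      congr 1
      ext x
      rw [mem_vs, Subgroup.mem_map]
      constructor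
      · rintro ⟨y, hy, rfl⟩
        rw [mem_vs] at hy
        change ρ (g * y * g⁻¹) (ρ g v) = ρ g v
        rw [← Module.End.mul_apply, ← map_mul, inv_mul_cancel_right, map_mul, Module.End.mul_apply,
          hy]
      · intro hx
        refine ⟨g⁻¹ * x * g, ?_, ?_⟩
        · rw [mem_vs, map_mul, map_mul, Module.End.mul_apply, Module.End.mul_apply, hx,
            ← Module.End.mul_apply, ← map_mul, inv_mul_cancel, map_one, Module.End.one_apply]
        · change g * (g⁻¹ * x * g) * g⁻¹ = x
          group)
  rw [h, finsum_eq_sum_of_fintype]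
  rfl

/-- the regular sum of a representation -/
def regCount (ρ : Representation (ZMod p) G V) : ℕ :=
  ∑ᶠ v : V, Nat.card (vectorStabilizer ρ v) * numRegularClasses p (vectorStabilizer ρ v)

/-- `regCount` as a number of triples -/
lemma regCount_eq [Finite V] [Fintype G] (ρ : Representation (ZMod p) G V) :
    regCount ρ = ∑ q : G × G, if ¬ p ∣ orderOf q.1 ∧ q.1 * q.2 = q.2 * q.1 then
      Nat.card {v : V // ρ q.1 v = v ∧ ρ q.2 v = v} else 0 := by
  have : Fintype V := Fintype.ofFinite V
  have h1 : regCount ρ = ∑ v : V, Nat.card {t : V × (G × G) //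
      ((¬ p ∣ orderOf t.2.1 ∧ t.2.1 * t.2.2 = t.2.2 * t.2.1) ∧ ρ t.2.1 t.1 = t.1 ∧
        ρ t.2.2 t.1 = t.1) ∧ t.1 = v} := by
    unfold regCount
    rw [finsum_eq_sum_of_fintype]
    refine Finset.sum_congr rfl fun v _ => ?_
    rw [card_mul_numRegularClasses]
    exact Nat.card_congr
      { toFun := fun q => ⟨(v, (q.1.1 : G), (q.1.2 : G)), ⟨⟨by
            have h2 := q.2.1
            rwa [Subgroup.orderOf_coe] , congrArg Subtype.val q.2.2⟩, q.1.1.2, q.1.2.2⟩, rfl⟩
        invFun := fun t => ⟨(⟨t.1.2.1, (mem_vs ρ v _).mpr (by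
            have h3 := t.2.1.2.1
            rw [t.2.2] at h3
            exact h3)⟩, ⟨t.1.2.2, (mem_vs ρ v _).mpr (by
            have h3 := t.2.1.2.2
            rw [t.2.2] at h3
            exact h3)⟩), by
            refine ⟨?_, Subtype.ext t.2.1.1.2⟩
            have h4 := t.2.1.1.1
            rwa [← Subgroup.orderOf_mk (H := vectorStabilizer ρ v) t.1.2.1 ((mem_vs ρ v _).mpr (by
              have h3 := t.2.1.2.1
              rw [t.2.2] at h3
              exact h3))] at h4⟩
        left_inv := fun q => rfl
        right_inv := by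
          rintro ⟨⟨w, x, c⟩, h, hw⟩
          simp only at hw
          subst hw
          rfl }
  have h2 := fiber_sum (fun t : V × (G × G) =>
    ((¬ p ∣ orderOf t.2.1 ∧ t.2.1 * t.2.2 = t.2.2 * t.2.1) ∧ ρ t.2.1 t.1 = t.1 ∧
        ρ t.2.2 t.1 = t.1)) (fun t : V × (G × G) => t.1)
  have h3 := fiber_sum (fun t : V × (G × G) =>
    ((¬ p ∣ orderOf t.2.1 ∧ t.2.1 * t.2.2 = t.2.2 * t.2.1) ∧ ρ t.2.1 t.1 = t.1 ∧
        ρ t.2.2 t.1 = t.1)) (fun t : V × (G × G) => t.2)
  rw [h1, h2, ← h3]
  refine Finset.sum_congr rfl fun q _ => ?_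
  by_cases hq : ¬ p ∣ orderOf q.1 ∧ q.1 * q.2 = q.2 * q.1
  · rw [if_pos hq]
    exact Nat.card_congr
      { toFun := fun t => ⟨t.1.1, by
          have h4 := t.2.1.2
          rw [t.2.2] at h4
          exact h4⟩
        invFun := fun v => ⟨(v.1, q), ⟨hq, v.2⟩, rfl⟩
        left_inv := by
          rintro ⟨⟨w, x⟩, h, hw⟩
          simp only at hw
          subst hw
          rfl
        right_inv := fun v => rfl }
  · rw [if_neg hq]
    have : IsEmpty {t : V × (G × G) //
      ((¬ p ∣ orderOf t.2.1 ∧ t.2.1 * t.2.2 = t.2.2 * t.2.1) ∧ ρ t.2.1 t.1 = t.1 ∧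
        ρ t.2.2 t.1 = t.1) ∧ t.2 = q} := by
      refine ⟨fun t => hq ?_⟩
      have h4 := t.2.1.1
      rw [t.2.2] at h4
      exact h4
    exact Nat.card_of_isEmpty

/-- **duality for regular classes** -/
theorem regCount_dual [Finite V] (ρ : Representation (ZMod p) G V) :
    regCount ρ.dual = regCount ρ := by
  have : Fintype G := Fintype.ofFinite G
  have hfd : Finite (Module.Dual (ZMod p) V) := finite_dual
  have hfz : Finite (ZMod p) := Finite.of_fintype _
  rw [regCount_eq, regCount_eq]
  refine Finset.sum_congr rfl fun q _ => ?_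
  by_cases hq : ¬ p ∣ orderOf q.1 ∧ q.1 * q.2 = q.2 * q.1
  · rw [if_pos hq, if_pos hq]
    have hn : ((orderOf q.1 : ℕ) : ZMod p) ≠ 0 := by
      intro h
      exact hq.1 ((ZMod.natCast_eq_zero_iff _ _).mp h)
    rw [card_fix_dual (ρ q.1) (ρ q.2) (orderOf q.1) hn
      (by rw [← map_pow, pow_orderOf_eq_one, map_one]) (by rw [← map_mul, ← map_mul, hq.2])]
    refine Nat.card_congr (Equiv.subtypeEquivRight fun f => ?_)
    have key : ∀ g : G, ρ.dual g f = f ↔ f ∘ₗ ρ g = f := by
      intro g
      have h1 : ∀ v, ρ g (ρ g⁻¹ v) = v := by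
        intro v
        rw [← Module.End.mul_apply, ← map_mul, mul_inv_cancel, map_one, Module.End.one_apply]
      have h2 : ∀ v, ρ g⁻¹ (ρ g v) = v := by
        intro v
        rw [← Module.End.mul_apply, ← map_mul, inv_mul_cancel, map_one, Module.End.one_apply]
      constructor
      · intro h
        ext v
        have h3 : f (ρ g⁻¹ (ρ g v)) = f (ρ g v) := congrFun (congrArg DFunLike.coe h) (ρ g v)
        rw [h2] at h3
        exact h3.symm
      · intro h
        ext v
        have h3 : f (ρ g (ρ g⁻¹ v)) = f (ρ g⁻¹ v) := congrFun (congrArg DFunLike.coe h) (ρ g⁻¹ v)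
        rw [h1] at h3
        exact h3.symm
    rw [key, key]
  · rw [if_neg hq, if_neg hq]

end rep

end Pool.Agent.Y63.AWC
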